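import Mathlib

/-!
# Rectilinear polylines with rational corners
-/

set_option autoImplicit false

namespace Pool.Agent.EPG

/-- the closed segment between two points (which differ in one coordinate only) -/
def seg (p q : ℚ × ℚ) : Set (ℚ × ℚ) := {r | r.1 ∈ Set.uIcc p.1 q.1 ∧ r.2 ∈ Set.uIcc p.2 q.2}

/-- the trace of a polyline: the union of its segments -/
def trace : List (ℚ × ℚ) → Set (ℚ × ℚ)
  | p :: q :: l => seg p q ∪ trace (q :: l)
  | _ => ∅

/-- the union of the open horizontal segments -/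
def hcov : List (ℚ × ℚ) → Set (ℚ × ℚ)
  | p :: q :: l => {r | p.2 = r.2 ∧ q.2 = r.2 ∧ min p.1 q.1 < r.1 ∧ r.1 < max p.1 q.1} ∪ hcov (q :: l)
  | _ => ∅

/-- the union of the open vertical segments -/
def vcov : List (ℚ × ℚ) → Set (ℚ × ℚ)
  | p :: q :: l => {r | p.1 = r.1 ∧ q.1 = r.1 ∧ min p.2 q.2 < r.2 ∧ r.2 < max p.2 q.2} ∪ vcov (q :: l)
  | _ => ∅

/-- a simple rectilinear polyline: every move is horizontal or vertical and not trivial, and every
segment meets the rest of the polyline only in its end point -/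
def Simple : List (ℚ × ℚ) → Prop
  | p :: q :: l => (p.1 = q.1 ∨ p.2 = q.2) ∧ p ≠ q ∧ (∀ r ∈ seg p q, r ∈ trace (q :: l) → r = q) ∧
      Simple (q :: l)
  | _ => True

/-- two polylines have a segment of positive length in common -/
def Touch (l m : List (ℚ × ℚ)) : Prop :=
  (hcov l ∩ hcov m).Nonempty ∨ (vcov l ∩ vcov m).Nonempty

end Pool.Agent.EPG
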