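import Mathlib

/-!
# EPG representations, bend number, simple `k`-trees

The definitions of the problem file MP_0ca7b7_co.
-/

set_option autoImplicit false

namespace Pool.Agent.EPG

/-- two points of the square grid that are joined by a unit edge -/
def GAdj (p q : ℤ × ℤ) : Prop :=
  (p.2 = q.2 ∧ (q.1 = p.1 + 1 ∨ p.1 = q.1 + 1)) ∨ (p.1 = q.1 ∧ (q.2 = p.2 + 1 ∨ p.2 = q.2 + 1))

/-- a grid path (with at least one edge), given by the list of its grid points: consecutive points
are joined by a unit edge of the grid, and no point is repeated -/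
structure IsGridPath (l : List (ℤ × ℤ)) : Prop where
  two_le : 2 ≤ l.length
  chain : l.IsChain GAdj
  nodup : l.Nodup

/-- the set of unit edges of a grid path -/
def gridEdges : List (ℤ × ℤ) → Set (Sym2 (ℤ × ℤ))
  | p :: q :: l => insert s(p, q) (gridEdges (q :: l))
  | _ => ∅

/-- the number of bends of a grid path: the number of interior points at which exactly one of the
two incident edges is horizontal -/
def bends : List (ℤ × ℤ) → ℕ
  | p :: q :: r :: l => (if (p.2 = q.2 ↔ q.2 = r.2) then 0 else 1) + bends (q :: r :: l)
  | _ => 0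

/-- an EPG representation of `G`: every vertex gets a grid path, and two distinct vertices are
adjacent if and only if their paths have a grid edge in common -/
structure IsEPG {V : Type*} (G : SimpleGraph V) (P : V → List (ℤ × ℤ)) : Prop where
  path : ∀ v, IsGridPath (P v)
  adj_iff : ∀ v w, v ≠ w → (G.Adj v w ↔ (gridEdges (P v) ∩ gridEdges (P w)).Nonempty)

/-- the bend number of `G` is at most `b` -/
def BendLE {V : Type*} (G : SimpleGraph V) (b : ℕ) : Prop :=
  ∃ P : V → List (ℤ × ℤ), IsEPG G P ∧ ∀ v, bends (P v) ≤ b

/-- the bend number -/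
noncomputable def bendNumber {V : Type*} (G : SimpleGraph V) : ℕ := sInf {b | BendLE G b}

/-- the earlier neighbours of the vertex `i` -/
noncomputable def back {n : ℕ} (T : SimpleGraph (Fin n)) (i : Fin n) : Finset (Fin n) := by
  classical
  exact Finset.univ.filter (fun j => j < i ∧ T.Adj j i)

/-- `T` is a simple `k`-tree, and `0, 1, ..., n - 1` is a construction order: the first `k + 1`
vertices form a clique, every further vertex `i` is stacked on a `k`-clique `back T i` of the
current graph, and no `k`-clique is used twice -/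
structure IsSimpleKTree (k n : ℕ) (T : SimpleGraph (Fin n)) : Prop where
  le : k + 1 ≤ n
  base : ∀ i j : Fin n, i.1 ≤ k → j.1 ≤ k → i ≠ j → T.Adj i j
  card : ∀ i : Fin n, k < i.1 → (back T i).card = k
  clique : ∀ i : Fin n, k < i.1 → T.IsClique (back T i : Set (Fin n))
  simple : ∀ i j : Fin n, k < i.1 → k < j.1 → back T i = back T j → i = j

/-- the simple treewidth of `G` is at most `k`: `G` is a (not necessarily induced) subgraph of a
simple `k`-tree -/
def StwLE {V : Type*} (k : ℕ) (G : SimpleGraph V) : Prop :=
  ∃ (n : ℕ) (T : SimpleGraph (Fin n)), IsSimpleKTree k n T ∧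
    ∃ f : V ↪ Fin n, ∀ u v, G.Adj u v → T.Adj (f u) (f v)

theorem mem_back {n : ℕ} {T : SimpleGraph (Fin n)} {i j : Fin n} :
    j ∈ back T i ↔ j < i ∧ T.Adj j i := by
  unfold back
  simp

end Pool.Agent.EPG
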