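import Mathlib
import Pool.Agent.Lib_helper32.EPG.Poly

/-!
# Zigzag polylines
-/

set_option autoImplicit false

namespace Pool.Agent.EPG

/-! ## segments -/

theorem left_mem_seg (p q : ℚ × ℚ) : p ∈ seg p q := ⟨Set.left_mem_uIcc, Set.left_mem_uIcc⟩

theorem right_mem_seg (p q : ℚ × ℚ) : q ∈ seg p q := ⟨Set.right_mem_uIcc, Set.right_mem_uIcc⟩

theorem mem_seg {p q r : ℚ × ℚ} :
    r ∈ seg p q ↔ (min p.1 q.1 ≤ r.1 ∧ r.1 ≤ max p.1 q.1) ∧ (min p.2 q.2 ≤ r.2 ∧ r.2 ≤ max p.2 q.2) := by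
  unfold seg
  rw [Set.mem_ofPred_eq, Set.uIcc, Set.uIcc, Set.mem_Icc, Set.mem_Icc]

/-! ## concatenation -/

theorem trace_append (l : List (ℚ × ℚ)) (p : ℚ × ℚ) (m : List (ℚ × ℚ)) :
    trace (l ++ p :: m) = trace (l ++ [p]) ∪ trace (p :: m) := by
  induction l with
  | nil => simp [trace]
  | cons a l ih =>
    rcases l with _ | ⟨b, l⟩
    · simp [trace]
    · simp only [List.cons_append] at ih ⊢
      rw [trace, ih, trace, Set.union_assoc]

theorem hcov_append (l : List (ℚ × ℚ)) (p : ℚ × ℚ) (m : List (ℚ × ℚ)) :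
    hcov (l ++ p :: m) = hcov (l ++ [p]) ∪ hcov (p :: m) := by
  induction l with
  | nil => simp [hcov]
  | cons a l ih =>
    rcases l with _ | ⟨b, l⟩
    · simp [hcov]
    · simp only [List.cons_append] at ih ⊢
      rw [hcov, ih, hcov, Set.union_assoc]

theorem vcov_append (l : List (ℚ × ℚ)) (p : ℚ × ℚ) (m : List (ℚ × ℚ)) :
    vcov (l ++ p :: m) = vcov (l ++ [p]) ∪ vcov (p :: m) := by
  induction l with
  | nil => simp [vcov]
  | cons a l ih =>
    rcases l with _ | ⟨b, l⟩
    · simp [vcov]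
    · simp only [List.cons_append] at ih ⊢
      rw [vcov, ih, vcov, Set.union_assoc]

theorem mem_trace_last (l : List (ℚ × ℚ)) (a p : ℚ × ℚ) : p ∈ trace (a :: l ++ [p]) := by
  induction l generalizing a with
  | nil => simp [trace, right_mem_seg]
  | cons b l ih =>
    simp only [List.cons_append] at ih ⊢
    rw [trace]
    exact Or.inr (ih b)

theorem simple_append (l : List (ℚ × ℚ)) (p : ℚ × ℚ) (m : List (ℚ × ℚ))
    (h1 : Simple (l ++ [p])) (h2 : Simple (p :: m))
    (h : ∀ r ∈ trace (l ++ [p]), r ∈ trace (p :: m) → r = p) : Simple (l ++ p :: m) := by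
  induction l with
  | nil => simpa using h2
  | cons a l ih =>
    rcases l with _ | ⟨b, l⟩
    · simp only [List.cons_append, List.nil_append] at h1 h ⊢
      rw [Simple] at h1 ⊢
      exact ⟨h1.1, h1.2.1, fun r hr hr' => h r (Or.inl hr) hr', h2⟩
    · simp only [List.cons_append] at h1 h ih ⊢
      rw [Simple] at h1 ⊢
      refine ⟨h1.1, h1.2.1, ?_, ih h1.2.2.2 ?_⟩
      · intro r hr hr'
        have := trace_append (b :: l) p m
        simp only [List.cons_append] at this
        rw [this] at hr'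
        rcases hr' with hr' | hr'
        · exact h1.2.2.1 r hr hr'
        · have h3 : r = p := h r (by rw [trace]; exact Or.inl hr) hr'
          subst h3
          exact h1.2.2.1 r hr (mem_trace_last l b r)
      · intro r hr hr'
        exact h r (by rw [trace]; exact Or.inr hr) hr'

/-! ## zigzags -/

/-- from the height `y0` on the line `x` to the height `y1`, horizontally to the next line, ... -/
def zig : ℚ → List (ℚ × ℚ) → List (ℚ × ℚ)
  | _, [] => []
  | y0, (x, y1) :: L => (x, y0) :: (x, y1) :: zig y1 L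

/-- strictly increasing heights -/
def UpZ : ℚ → List (ℚ × ℚ) → Prop
  | _, [] => True
  | y0, (_, y1) :: [] => y0 < y1
  | y0, (x, y1) :: (x', y2) :: L => y0 < y1 ∧ x ≠ x' ∧ UpZ y1 ((x', y2) :: L)

/-- strictly increasing abscissae, alternating heights -/
def XZ : ℚ → List (ℚ × ℚ) → Prop
  | _, [] => True
  | y0, (_, y1) :: [] => y0 ≠ y1
  | y0, (x, y1) :: (x', y2) :: L => y0 ≠ y1 ∧ x < x' ∧ XZ y1 ((x', y2) :: L)

theorem zig_length (y0 : ℚ) (L : List (ℚ × ℚ)) : (zig y0 L).length = 2 * L.length := by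
  induction L generalizing y0 with
  | nil => simp [zig]
  | cons a L ih => obtain ⟨x, y1⟩ := a; rw [zig, List.length_cons, List.length_cons, ih]; simp; ring

/-- the height at the end of the zigzag -/
def zend : ℚ → List (ℚ × ℚ) → ℚ
  | y0, [] => y0
  | _, (_, y1) :: L => zend y1 L

theorem zig_append (y0 : ℚ) (L M : List (ℚ × ℚ)) :
    zig y0 (L ++ M) = zig y0 L ++ zig (zend y0 L) M := by
  induction L generalizing y0 with
  | nil => simp [zig, zend]
  | cons a L ih => obtain ⟨x, y1⟩ := a; simp [zig, zend, ih]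

theorem zend_append (y0 : ℚ) (L M : List (ℚ × ℚ)) : zend y0 (L ++ M) = zend (zend y0 L) M := by
  induction L generalizing y0 with
  | nil => simp [zend]
  | cons a L ih => obtain ⟨x, y1⟩ := a; simp [zend, ih]

theorem upz_le : ∀ (y0 : ℚ) (L : List (ℚ × ℚ)), UpZ y0 L → y0 ≤ zend y0 L
  | _, [], _ => le_refl _
  | _, [(_, _)], h => le_of_lt h
  | _, (_, y1) :: (x', y2) :: L, h => le_trans h.1.le (upz_le y1 ((x', y2) :: L) h.2.2)

theorem trace_nil : trace [] = ∅ := rfl

theorem trace_one (p : ℚ × ℚ) : trace [p] = ∅ := rfl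

theorem trace_cons2 (p q : ℚ × ℚ) (l : List (ℚ × ℚ)) :
    trace (p :: q :: l) = seg p q ∪ trace (q :: l) := rfl

theorem trace_two (p q : ℚ × ℚ) : trace [p, q] = seg p q := by
  rw [trace_cons2, trace_one, Set.union_empty]

theorem simple_cons2 (p q : ℚ × ℚ) (l : List (ℚ × ℚ)) :
    Simple (p :: q :: l) ↔ (p.1 = q.1 ∨ p.2 = q.2) ∧ p ≠ q ∧
      (∀ r ∈ seg p q, r ∈ trace (q :: l) → r = q) ∧ Simple (q :: l) := Iff.rfl

theorem simple_one (p : ℚ × ℚ) : Simple [p] := trivial

theorem mem_seg_v {x y0 y1 : ℚ} {r : ℚ × ℚ} :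
    r ∈ seg (x, y0) (x, y1) ↔ r.1 = x ∧ min y0 y1 ≤ r.2 ∧ r.2 ≤ max y0 y1 := by
  rw [mem_seg]
  simp only [min_self, max_self]
  constructor
  · rintro ⟨⟨h1, h2⟩, h3⟩; exact ⟨le_antisymm h2 h1, h3⟩
  · rintro ⟨h1, h3⟩; exact ⟨⟨h1.ge, h1.le⟩, h3⟩

theorem mem_seg_h {x x' y : ℚ} {r : ℚ × ℚ} :
    r ∈ seg (x, y) (x', y) ↔ r.2 = y ∧ min x x' ≤ r.1 ∧ r.1 ≤ max x x' := by
  rw [mem_seg]
  simp only [min_self, max_self]
  constructor
  · rintro ⟨h3, ⟨h1, h2⟩⟩; exact ⟨le_antisymm h2 h1, h3⟩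
  · rintro ⟨h1, h3⟩; exact ⟨h3, ⟨h1.ge, h1.le⟩⟩

theorem trace_zig1 (y0 x y1 : ℚ) : trace (zig y0 [(x, y1)]) = seg (x, y0) (x, y1) := by
  rw [zig, zig, trace_two]

theorem trace_zig2 (y0 x y1 x' y2 : ℚ) (L : List (ℚ × ℚ)) :
    trace (zig y0 ((x, y1) :: (x', y2) :: L)) =
      seg (x, y0) (x, y1) ∪ (seg (x, y1) (x', y1) ∪ trace (zig y1 ((x', y2) :: L))) := by
  rw [zig, trace_cons2]
  rw [zig, trace_cons2]

/-- the trace of an increasing zigzag: it starts at height `y0` in one point only -/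
theorem upz_trace : ∀ (y0 x y1 : ℚ) (L : List (ℚ × ℚ)), UpZ y0 ((x, y1) :: L) →
    ∀ r ∈ trace (zig y0 ((x, y1) :: L)), y0 ≤ r.2 ∧ r.2 ≤ zend y0 ((x, y1) :: L) ∧
      (r.2 = y0 → r = (x, y0))
  | y0, x, y1, [], h => by
    intro r hr
    rw [trace_zig1, mem_seg_v] at hr
    simp only [UpZ] at h
    simp only [zend, min_eq_left h.le, max_eq_right h.le] at hr ⊢
    exact ⟨hr.2.1, hr.2.2, fun h1 => Prod.ext hr.1 h1⟩
  | y0, x, y1, (x', y2) :: L, h => by
    intro r hr
    obtain ⟨h1, h2, h3⟩ := h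
    have ih := upz_trace y1 x' y2 L h3
    have hle : y1 ≤ zend y1 ((x', y2) :: L) := upz_le y1 _ h3
    rw [trace_zig2] at hr
    rw [zend]
    rcases hr with hr | hr | hr
    · rw [mem_seg_v] at hr
      simp only [min_eq_left h1.le, max_eq_right h1.le] at hr
      exact ⟨hr.2.1, le_trans hr.2.2 hle, fun h4 => Prod.ext hr.1 h4⟩
    · rw [mem_seg_h] at hr
      exact ⟨by rw [hr.1]; exact h1.le, by rw [hr.1]; exact hle, fun h4 => by linarith [hr.1]⟩
    · have := ih r hr
      exact ⟨by linarith [this.1], this.2.1, fun h4 => by linarith [this.1]⟩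

theorem upz_simple : ∀ (y0 : ℚ) (L : List (ℚ × ℚ)), UpZ y0 L → Simple (zig y0 L)
  | _, [], _ => trivial
  | y0, [(x, y1)], h => by
    simp only [UpZ] at h
    rw [zig, zig, simple_cons2]
    refine ⟨Or.inl rfl, ?_, ?_, trivial⟩
    · intro h1; rw [Prod.mk.injEq] at h1; exact h.ne h1.2
    · intro r _ hr; rw [trace_one] at hr; exact absurd hr (Set.notMem_empty _)
  | y0, (x, y1) :: (x', y2) :: L, h => by
    obtain ⟨h1, h2, h3⟩ := h
    have ih := upz_simple y1 ((x', y2) :: L) h3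
    have htr := upz_trace y1 x' y2 L h3
    have e : zig y0 ((x, y1) :: (x', y2) :: L) = (x, y0) :: (x, y1) :: zig y1 ((x', y2) :: L) := rfl
    have e2 : zig y1 ((x', y2) :: L) = (x', y1) :: (x', y2) :: zig y2 L := rfl
    have h4 : Simple ((x, y1) :: zig y1 ((x', y2) :: L)) := by
      rw [e2, simple_cons2, ← e2]
      refine ⟨Or.inr rfl, ?_, ?_, ih⟩
      · intro h5; rw [Prod.mk.injEq] at h5; exact h2 h5.1
      · intro r hr hr'
        rw [mem_seg_h] at hr
        exact (htr r hr').2.2 hr.1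
    rw [e, simple_cons2]
    refine ⟨Or.inl rfl, ?_, ?_, h4⟩
    · intro h5; rw [Prod.mk.injEq] at h5; exact h1.ne h5.2
    · intro r hr hr'
      rw [mem_seg_v] at hr
      simp only [min_eq_left h1.le, max_eq_right h1.le] at hr
      rw [e2, trace_cons2, ← e2] at hr'
      rcases hr' with hr' | hr'
      · rw [mem_seg_h] at hr'
        exact Prod.ext hr.1 hr'.1
      · have h5 := htr r hr'
        have h6 : r.2 = y1 := le_antisymm hr.2.2 h5.1
        have h7 := h5.2.2 h6
        exfalso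
        apply h2
        rw [← hr.1, h7]

/-- the trace of an `x`-monotone zigzag -/
theorem xz_trace : ∀ (y0 x y1 : ℚ) (L : List (ℚ × ℚ)), XZ y0 ((x, y1) :: L) →
    ∀ r ∈ trace (zig y0 ((x, y1) :: L)), x ≤ r.1 ∧ (r.1 = x → r ∈ seg (x, y0) (x, y1))
  | y0, x, y1, [], h => by
    intro r hr
    rw [trace_zig1] at hr
    exact ⟨(mem_seg_v.1 hr).1.ge, fun _ => hr⟩
  | y0, x, y1, (x', y2) :: L, h => by
    intro r hr
    obtain ⟨h1, h2, h3⟩ := h
    have ih := xz_trace y1 x' y2 L h3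
    rw [trace_zig2] at hr
    rcases hr with hr | hr | hr
    · exact ⟨(mem_seg_v.1 hr).1.ge, fun _ => hr⟩
    · rw [mem_seg_h] at hr
      simp only [min_eq_left h2.le, max_eq_right h2.le] at hr
      refine ⟨hr.2.1, fun h4 => ?_⟩
      have : r = (x, y1) := Prod.ext h4 hr.1
      rw [this]
      exact right_mem_seg _ _
    · have := ih r hr
      exact ⟨by linarith [this.1], fun h4 => by linarith [this.1]⟩

theorem xz_simple : ∀ (y0 : ℚ) (L : List (ℚ × ℚ)), XZ y0 L → Simple (zig y0 L)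
  | _, [], _ => trivial
  | y0, [(x, y1)], h => by
    simp only [XZ] at h
    rw [zig, zig, simple_cons2]
    refine ⟨Or.inl rfl, ?_, ?_, trivial⟩
    · intro h1; rw [Prod.mk.injEq] at h1; exact h h1.2
    · intro r _ hr; rw [trace_one] at hr; exact absurd hr (Set.notMem_empty _)
  | y0, (x, y1) :: (x', y2) :: L, h => by
    obtain ⟨h1, h2, h3⟩ := h
    have ih := xz_simple y1 ((x', y2) :: L) h3
    have htr := xz_trace y1 x' y2 L h3
    have e : zig y0 ((x, y1) :: (x', y2) :: L) = (x, y0) :: (x, y1) :: zig y1 ((x', y2) :: L) := rfl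
    have e2 : zig y1 ((x', y2) :: L) = (x', y1) :: (x', y2) :: zig y2 L := rfl
    have h4 : Simple ((x, y1) :: zig y1 ((x', y2) :: L)) := by
      rw [e2, simple_cons2, ← e2]
      refine ⟨Or.inr rfl, ?_, ?_, ih⟩
      · intro h5; rw [Prod.mk.injEq] at h5; exact h2.ne h5.1
      · intro r hr hr'
        rw [mem_seg_h] at hr
        simp only [min_eq_left h2.le, max_eq_right h2.le] at hr
        exact Prod.ext (le_antisymm hr.2.2 (htr r hr').1) hr.1
    rw [e, simple_cons2]
    refine ⟨Or.inl rfl, ?_, ?_, h4⟩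
    · intro h5; rw [Prod.mk.injEq] at h5; exact h1 h5.2
    · intro r hr hr'
      rw [mem_seg_v] at hr
      rw [e2, trace_cons2, ← e2] at hr'
      rcases hr' with hr' | hr'
      · rw [mem_seg_h] at hr'
        exact Prod.ext hr.1 hr'.1
      · have h5 := htr r hr'
        exfalso
        linarith [h5.1, hr.1]

/-- the trace stays between the extreme heights of the corners -/
theorem trace_box_y (lo hi : ℚ) : ∀ (l : List (ℚ × ℚ)), (∀ p ∈ l, lo ≤ p.2 ∧ p.2 ≤ hi) →
    ∀ r ∈ trace l, lo ≤ r.2 ∧ r.2 ≤ hi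
  | [], _ => by intro r hr; exact absurd hr (Set.notMem_empty _)
  | [_], _ => by intro r hr; exact absurd hr (Set.notMem_empty _)
  | p :: q :: l, h => by
    intro r hr
    rw [trace_cons2] at hr
    rcases hr with hr | hr
    · rw [mem_seg] at hr
      have h1 := h p (by simp)
      have h2 := h q (by simp)
      exact ⟨le_trans (le_min h1.1 h2.1) hr.2.1, le_trans hr.2.2 (max_le h1.2 h2.2)⟩
    · exact trace_box_y lo hi (q :: l) (fun a ha => h a (by simp at ha ⊢; tauto)) r hr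

/-- the trace stays between the extreme abscissae of the corners -/
theorem trace_box_x (lo hi : ℚ) : ∀ (l : List (ℚ × ℚ)), (∀ p ∈ l, lo ≤ p.1 ∧ p.1 ≤ hi) →
    ∀ r ∈ trace l, lo ≤ r.1 ∧ r.1 ≤ hi
  | [], _ => by intro r hr; exact absurd hr (Set.notMem_empty _)
  | [_], _ => by intro r hr; exact absurd hr (Set.notMem_empty _)
  | p :: q :: l, h => by
    intro r hr
    rw [trace_cons2] at hr
    rcases hr with hr | hr
    · rw [mem_seg] at hr
      have h1 := h p (by simp)
      have h2 := h q (by simp)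
      exact ⟨le_trans (le_min h1.1 h2.1) hr.1.1, le_trans hr.1.2 (max_le h1.2 h2.2)⟩
    · exact trace_box_x lo hi (q :: l) (fun a ha => h a (by simp at ha ⊢; tauto)) r hr

/-- the last vertical of an increasing zigzag is the only place at the final height -/
theorem upz_last : ∀ (y0 x y1 : ℚ) (L : List (ℚ × ℚ)), UpZ y0 (L ++ [(x, y1)]) →
    ∀ r ∈ trace (zig y0 (L ++ [(x, y1)])), r.2 ≤ y1 ∧ (r.2 = y1 → r = (x, y1))
  | y0, x, y1, [], h => by
    intro r hr
    simp only [List.nil_append] at hr h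
    rw [trace_zig1, mem_seg_v] at hr
    simp only [UpZ] at h
    simp only [min_eq_left h.le, max_eq_right h.le] at hr
    exact ⟨hr.2.2, fun h1 => Prod.ext hr.1 h1⟩
  | y0, x, y1, [(x', y')], h => by
    intro r hr
    simp only [List.cons_append, List.nil_append] at hr h
    obtain ⟨h1, h2, h3⟩ := h
    have ih := upz_last y' x y1 [] h3
    rw [trace_zig2] at hr
    simp only [UpZ] at h3
    rcases hr with hr | hr | hr
    · rw [mem_seg_v] at hr
      simp only [min_eq_left h1.le, max_eq_right h1.le] at hr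
      exact ⟨by linarith [hr.2.2], fun h4 => by linarith [hr.2.2]⟩
    · rw [mem_seg_h] at hr
      exact ⟨by linarith [hr.1], fun h4 => by linarith [hr.1]⟩
    · exact ih r hr
  | y0, x, y1, (x', y') :: (x'', y'') :: L, h => by
    intro r hr
    simp only [List.cons_append] at hr h
    obtain ⟨h1, h2, h3⟩ := h
    have ih := upz_last y' x y1 ((x'', y'') :: L) h3
    have hlt : y' < y1 := by
      have h4 := upz_lt y' x'' y'' (L ++ [(x, y1)]) h3
      have h5 : zend y' ((x'', y'') :: (L ++ [(x, y1)])) = y1 := by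
        have := zend_append y' ((x'', y'') :: L) [(x, y1)]
        simpa [zend] using this
      rwa [h5] at h4
    rw [trace_zig2] at hr
    rcases hr with hr | hr | hr
    · rw [mem_seg_v] at hr
      simp only [min_eq_left h1.le, max_eq_right h1.le] at hr
      exact ⟨by linarith [hr.2.2], fun h4 => by linarith [hr.2.2]⟩
    · rw [mem_seg_h] at hr
      exact ⟨by linarith [hr.1], fun h4 => by linarith [hr.1]⟩
    · exact ih r hr
where
  upz_lt : ∀ (y0 x y1 : ℚ) (L : List (ℚ × ℚ)), UpZ y0 ((x, y1) :: L) →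
      y0 < zend y0 ((x, y1) :: L)
    | _, _, _, [], h => h
    | _, _, y1, (x', y2) :: L, h => lt_of_lt_of_le h.1 (upz_le y1 _ h.2.2)

end Pool.Agent.EPG
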