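import Mathlib
import Pool.Agent.Lib_helper32.EPG.Zig

/-!
# The covered sets of zigzags
-/

set_option autoImplicit false

namespace Pool.Agent.EPG

/-- open vertical segment -/
def vrun (x y0 y1 : ℚ) : Set (ℚ × ℚ) := {r | r.1 = x ∧ min y0 y1 < r.2 ∧ r.2 < max y0 y1}

/-- open horizontal segment -/
def hrun (y x0 x1 : ℚ) : Set (ℚ × ℚ) := {r | r.2 = y ∧ min x0 x1 < r.1 ∧ r.1 < max x0 x1}

theorem mem_vrun {x y0 y1 : ℚ} {r : ℚ × ℚ} :
    r ∈ vrun x y0 y1 ↔ r.1 = x ∧ min y0 y1 < r.2 ∧ r.2 < max y0 y1 := Iff.rfl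

theorem mem_hrun {y x0 x1 : ℚ} {r : ℚ × ℚ} :
    r ∈ hrun y x0 x1 ↔ r.2 = y ∧ min x0 x1 < r.1 ∧ r.1 < max x0 x1 := Iff.rfl

theorem mem_vrun_lt {x y0 y1 : ℚ} (h : y0 < y1) {r : ℚ × ℚ} :
    r ∈ vrun x y0 y1 ↔ r.1 = x ∧ y0 < r.2 ∧ r.2 < y1 := by
  rw [mem_vrun, min_eq_left h.le, max_eq_right h.le]

theorem mem_hrun_lt {y x0 x1 : ℚ} (h : x0 < x1) {r : ℚ × ℚ} :
    r ∈ hrun y x0 x1 ↔ r.2 = y ∧ x0 < r.1 ∧ r.1 < x1 := by
  rw [mem_hrun, min_eq_left h.le, max_eq_right h.le]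

theorem hcov_one (p : ℚ × ℚ) : hcov [p] = ∅ := rfl

theorem vcov_one (p : ℚ × ℚ) : vcov [p] = ∅ := rfl

theorem hcov_v (x y0 y1 : ℚ) (l : List (ℚ × ℚ)) :
    hcov ((x, y0) :: (x, y1) :: l) = hcov ((x, y1) :: l) := by
  ext r
  rw [hcov, Set.mem_union, Set.mem_ofPred_eq]
  simp only [min_self, max_self]
  constructor
  · rintro (h | h)
    · exact absurd (lt_trans h.2.2.1 h.2.2.2) (lt_irrefl _)
    · exact h
  · exact Or.inr

theorem hcov_h (x x' y : ℚ) (l : List (ℚ × ℚ)) :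
    hcov ((x, y) :: (x', y) :: l) = hrun y x x' ∪ hcov ((x', y) :: l) := by
  ext r
  rw [hcov, Set.mem_union, Set.mem_ofPred_eq, Set.mem_union, mem_hrun]
  constructor
  · rintro (h | h)
    · exact Or.inl ⟨h.1.symm, h.2.2⟩
    · exact Or.inr h
  · rintro (h | h)
    · exact Or.inl ⟨h.1.symm, h.1.symm, h.2⟩
    · exact Or.inr h

theorem vcov_h (x x' y : ℚ) (l : List (ℚ × ℚ)) :
    vcov ((x, y) :: (x', y) :: l) = vcov ((x', y) :: l) := by
  ext r
  rw [vcov, Set.mem_union, Set.mem_ofPred_eq]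
  simp only [min_self, max_self]
  constructor
  · rintro (h | h)
    · exact absurd (lt_trans h.2.2.1 h.2.2.2) (lt_irrefl _)
    · exact h
  · exact Or.inr

theorem vcov_v (x y0 y1 : ℚ) (l : List (ℚ × ℚ)) :
    vcov ((x, y0) :: (x, y1) :: l) = vrun x y0 y1 ∪ vcov ((x, y1) :: l) := by
  ext r
  rw [vcov, Set.mem_union, Set.mem_ofPred_eq, Set.mem_union, mem_vrun]
  constructor
  · rintro (h | h)
    · exact Or.inl ⟨h.1.symm, h.2.2⟩
    · exact Or.inr h
  · rintro (h | h)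
    · exact Or.inl ⟨h.1.symm, h.1.symm, h.2⟩
    · exact Or.inr h

theorem hcov_zig1 (y0 x y1 : ℚ) : hcov (zig y0 [(x, y1)]) = ∅ := by
  rw [zig, zig, hcov_v, hcov_one]

theorem hcov_zig2 (y0 x y1 x' y2 : ℚ) (L : List (ℚ × ℚ)) :
    hcov (zig y0 ((x, y1) :: (x', y2) :: L)) = hrun y1 x x' ∪ hcov (zig y1 ((x', y2) :: L)) := by
  rw [zig, hcov_v, zig, hcov_h]

theorem vcov_zig (y0 x y1 : ℚ) (L : List (ℚ × ℚ)) :
    vcov (zig y0 ((x, y1) :: L)) = vrun x y0 y1 ∪ vcov (zig y1 L) := by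
  rw [zig, vcov_v]
  rcases L with _ | ⟨⟨x', y2⟩, L⟩
  · simp [zig, vcov]
  · rw [zig, vcov_h]

/-! ## stairs -/

/-- columns `κ i, κ (i+1), ...` with the heights `η (i+1), η (i+2), ...` -/
def stair (κ η : ℕ → ℚ) : ℕ → ℕ → List (ℚ × ℚ)
  | _, 0 => []
  | i, m + 1 => (κ i, η (i + 1)) :: stair κ η (i + 1) m

theorem stair_length (κ η : ℕ → ℚ) (i m : ℕ) : (stair κ η i m).length = m := by
  induction m generalizing i with
  | zero => rfl
  | succ m ih => rw [stair, List.length_cons, ih]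

theorem stair_snoc (κ η : ℕ → ℚ) (i m : ℕ) :
    stair κ η i (m + 1) = stair κ η i m ++ [(κ (i + m), η (i + m + 1))] := by
  induction m generalizing i with
  | zero => simp [stair]
  | succ m ih =>
    rw [stair, ih (i + 1), stair, List.cons_append]
    congr 3
    · congr 1 <;> congr 1 <;> omega

theorem zend_stair (κ η : ℕ → ℚ) (i m : ℕ) : zend (η i) (stair κ η i m) = η (i + m) := by
  induction m generalizing i with
  | zero => rfl
  | succ m ih =>
    rw [stair, zend, ih]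
    congr 1; omega

theorem stair_upz (κ η : ℕ → ℚ) (i m : ℕ) (hη : ∀ l, i ≤ l → l < i + m → η l < η (l + 1))
    (hκ : ∀ l, i ≤ l → l + 1 < i + m → κ l ≠ κ (l + 1)) : UpZ (η i) (stair κ η i m) := by
  induction m generalizing i with
  | zero => trivial
  | succ m ih =>
    have h1 := ih (i + 1) (fun l h1 h2 => hη l (by omega) (by omega))
      (fun l h1 h2 => hκ l (by omega) (by omega))
    rcases m with _ | m
    · exact hη i le_rfl (by omega)
    · exact ⟨hη i le_rfl (by omega), hκ i le_rfl (by omega), h1⟩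

theorem vcov_stair (κ η : ℕ → ℚ) (i m : ℕ) (hη : ∀ l, i ≤ l → l < i + m → η l < η (l + 1))
    (r : ℚ × ℚ) : r ∈ vcov (zig (η i) (stair κ η i m)) ↔
      ∃ l, i ≤ l ∧ l < i + m ∧ r.1 = κ l ∧ η l < r.2 ∧ r.2 < η (l + 1) := by
  induction m generalizing i with
  | zero =>
    constructor
    · intro h; exact absurd h (Set.notMem_empty _)
    · rintro ⟨l, h1, h2, _⟩; omega
  | succ m ih =>
    have h1 := ih (i + 1) (fun l h1 h2 => hη l (by omega) (by omega))
    rw [stair, vcov_zig, Set.mem_union, mem_vrun_lt (hη i le_rfl (by omega)), h1]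
    constructor
    · rintro (h | ⟨l, h2, h3, h4⟩)
      · exact ⟨i, le_rfl, by omega, h⟩
      · exact ⟨l, by omega, by omega, h4⟩
    · rintro ⟨l, h2, h3, h4⟩
      rcases Nat.eq_or_lt_of_le h2 with h5 | h5
      · subst h5; exact Or.inl h4
      · exact Or.inr ⟨l, by omega, by omega, h4⟩

theorem hcov_stair (κ η : ℕ → ℚ) (i m : ℕ) (r : ℚ × ℚ)
    (h : r ∈ hcov (zig (η i) (stair κ η i m))) :
    ∃ l, i ≤ l ∧ l + 1 < i + m ∧ r.2 = η (l + 1) := by
  induction m generalizing i with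
  | zero => exact absurd h (Set.notMem_empty _)
  | succ m ih =>
    rcases m with _ | m
    · rw [stair, stair, hcov_zig1] at h
      exact absurd h (Set.notMem_empty _)
    · rw [stair, stair, hcov_zig2] at h
      rcases h with h | h
      · exact ⟨i, le_rfl, by omega, h.1⟩
      · obtain ⟨l, h1, h2, h3⟩ := ih (i + 1) h
        exact ⟨l, by omega, by omega, h3⟩

/-! ## waves -/

/-- abscissae `ξ i, ξ (i+1), ...`, heights alternately `hi` and `lo` -/
def wave (ξ : ℕ → ℚ) : ℚ → ℚ → ℕ → ℕ → List (ℚ × ℚ)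
  | _, _, _, 0 => []
  | lo, hi, i, n + 1 => (ξ i, hi) :: wave ξ hi lo (i + 1) n

theorem wave_length (ξ : ℕ → ℚ) (lo hi : ℚ) (i n : ℕ) : (wave ξ lo hi i n).length = n := by
  induction n generalizing i lo hi with
  | zero => rfl
  | succ n ih => rw [wave, List.length_cons, ih]

theorem wave_xz (ξ : ℕ → ℚ) (lo hi : ℚ) (hlh : lo ≠ hi) (i n : ℕ)
    (hξ : ∀ l, i ≤ l → l + 1 < i + n → ξ l < ξ (l + 1)) : XZ lo (wave ξ lo hi i n) := by
  induction n generalizing i lo hi with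
  | zero => trivial
  | succ n ih =>
    have h1 := ih hi lo hlh.symm (i + 1) (fun l h1 h2 => hξ l (by omega) (by omega))
    rcases n with _ | n
    · exact hlh
    · exact ⟨hlh, hξ i le_rfl (by omega), h1⟩

theorem vcov_wave (ξ : ℕ → ℚ) (lo hi : ℚ) (i n : ℕ) (r : ℚ × ℚ) :
    r ∈ vcov (zig lo (wave ξ lo hi i n)) ↔
      ∃ l, i ≤ l ∧ l < i + n ∧ r.1 = ξ l ∧ min lo hi < r.2 ∧ r.2 < max lo hi := by
  induction n generalizing i lo hi with
  | zero =>
    constructor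
    · intro h; exact absurd h (Set.notMem_empty _)
    · rintro ⟨l, h1, h2, _⟩; omega
  | succ n ih =>
    have h1 := ih hi lo (i + 1)
    rw [min_comm hi lo, max_comm hi lo] at h1
    rw [wave, vcov_zig, Set.mem_union, mem_vrun, h1]
    constructor
    · rintro (h | ⟨l, h2, h3, h4⟩)
      · exact ⟨i, le_rfl, by omega, h⟩
      · exact ⟨l, by omega, by omega, h4⟩
    · rintro ⟨l, h2, h3, h4⟩
      rcases Nat.eq_or_lt_of_le h2 with h5 | h5
      · subst h5; exact Or.inl h4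
      · exact Or.inr ⟨l, by omega, by omega, h4⟩

theorem hcov_wave (ξ : ℕ → ℚ) (lo hi : ℚ) (i n : ℕ)
    (hξ : ∀ l, i ≤ l → l + 1 < i + n → ξ l < ξ (l + 1)) (r : ℚ × ℚ)
    (h : r ∈ hcov (zig lo (wave ξ lo hi i n))) :
    (r.2 = lo ∨ r.2 = hi) ∧ ∃ l, i ≤ l ∧ l + 1 < i + n ∧ ξ l < r.1 ∧ r.1 < ξ (l + 1) := by
  induction n generalizing i lo hi with
  | zero => exact absurd h (Set.notMem_empty _)
  | succ n ih =>
    rcases n with _ | n
    · rw [wave, wave, hcov_zig1] at h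
      exact absurd h (Set.notMem_empty _)
    · rw [wave, wave, hcov_zig2] at h
      rcases h with h | h
      · rw [mem_hrun_lt (hξ i le_rfl (by omega))] at h
        exact ⟨Or.inr h.1, i, le_rfl, by omega, h.2⟩
      · obtain ⟨h0, l, h1, h2, h3⟩ := ih hi lo (i + 1)
          (fun l h1 h2 => hξ l (by omega) (by omega)) h
        exact ⟨h0.symm, l, by omega, by omega, h3⟩

theorem wave_corners (ξ : ℕ → ℚ) (lo hi : ℚ) (i n : ℕ) :
    ∀ p ∈ zig lo (wave ξ lo hi i n), p.2 = lo ∨ p.2 = hi := by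
  induction n generalizing i lo hi with
  | zero => intro p hp; simp [wave, zig] at hp
  | succ n ih =>
    intro p hp
    rw [wave, zig, List.mem_cons, List.mem_cons] at hp
    rcases hp with h | h | h
    · left; rw [h]
    · right; rw [h]
    · exact (ih hi lo (i + 1) p h).symm

end Pool.Agent.EPG
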