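import Mathlib
import Pool.Agent.Lib_helper32.EPG.Cov

/-!
# The symmetries of the plane: two reflections and the transposition
-/

set_option autoImplicit false

namespace Pool.Agent.EPG

/-- reflection of the abscissae -/
def rx (p : ℚ × ℚ) : ℚ × ℚ := (-p.1, p.2)

/-- reflection of the heights -/
def ry (p : ℚ × ℚ) : ℚ × ℚ := (p.1, -p.2)

/-- transposition -/
def tr (p : ℚ × ℚ) : ℚ × ℚ := (p.2, p.1)

theorem rx_rx (p : ℚ × ℚ) : rx (rx p) = p := by simp [rx]

theorem ry_ry (p : ℚ × ℚ) : ry (ry p) = p := by simp [ry]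

theorem tr_tr (p : ℚ × ℚ) : tr (tr p) = p := by simp [tr]

theorem neg_seg (a b c : ℚ) : (min (-a) (-b) ≤ -c ∧ -c ≤ max (-a) (-b)) ↔
    (min a b ≤ c ∧ c ≤ max a b) := by
  rw [min_neg_neg, max_neg_neg, neg_le_neg_iff, neg_le_neg_iff]
  exact and_comm

theorem neg_seg' (a b c : ℚ) : (min (-a) (-b) < -c ∧ -c < max (-a) (-b)) ↔
    (min a b < c ∧ c < max a b) := by
  rw [min_neg_neg, max_neg_neg, neg_lt_neg_iff, neg_lt_neg_iff]
  exact and_comm

theorem seg_rx (p q r : ℚ × ℚ) : rx r ∈ seg (rx p) (rx q) ↔ r ∈ seg p q := by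
  rw [mem_seg, mem_seg]
  simp only [rx]
  rw [neg_seg]

theorem seg_ry (p q r : ℚ × ℚ) : ry r ∈ seg (ry p) (ry q) ↔ r ∈ seg p q := by
  rw [mem_seg, mem_seg]
  simp only [ry]
  rw [neg_seg]

theorem seg_tr (p q r : ℚ × ℚ) : tr r ∈ seg (tr p) (tr q) ↔ r ∈ seg p q := by
  rw [mem_seg, mem_seg]
  simp only [tr]
  exact and_comm

theorem trace_rx : ∀ (l : List (ℚ × ℚ)) (r : ℚ × ℚ), rx r ∈ trace (l.map rx) ↔ r ∈ trace l
  | [], _ => Iff.rfl
  | [_], _ => Iff.rfl
  | p :: q :: l, r => by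
    have := trace_rx (q :: l) r
    simp only [List.map_cons] at this ⊢
    rw [trace_cons2, trace_cons2, Set.mem_union, Set.mem_union, seg_rx, this]

theorem trace_ry : ∀ (l : List (ℚ × ℚ)) (r : ℚ × ℚ), ry r ∈ trace (l.map ry) ↔ r ∈ trace l
  | [], _ => Iff.rfl
  | [_], _ => Iff.rfl
  | p :: q :: l, r => by
    have := trace_ry (q :: l) r
    simp only [List.map_cons] at this ⊢
    rw [trace_cons2, trace_cons2, Set.mem_union, Set.mem_union, seg_ry, this]

theorem trace_tr : ∀ (l : List (ℚ × ℚ)) (r : ℚ × ℚ), tr r ∈ trace (l.map tr) ↔ r ∈ trace l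
  | [], _ => Iff.rfl
  | [_], _ => Iff.rfl
  | p :: q :: l, r => by
    have := trace_tr (q :: l) r
    simp only [List.map_cons] at this ⊢
    rw [trace_cons2, trace_cons2, Set.mem_union, Set.mem_union, seg_tr, this]

theorem simple_rx : ∀ (l : List (ℚ × ℚ)), Simple l → Simple (l.map rx)
  | [], _ => trivial
  | [_], _ => trivial
  | p :: q :: l, h => by
    have ih := simple_rx (q :: l) h.2.2.2
    rw [simple_cons2] at h
    simp only [List.map_cons] at ih ⊢
    rw [simple_cons2]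
    refine ⟨?_, ?_, ?_, ih⟩
    · rcases h.1 with h1 | h1
      · left; simp [rx, h1]
      · right; simp [rx, h1]
    · intro h1; apply h.2.1; rw [← rx_rx p, h1, rx_rx]
    · intro r hr hr'
      rw [← rx_rx r, seg_rx] at hr
      have e := trace_rx (q :: l) (rx r)
      rw [rx_rx, List.map_cons] at e
      rw [e] at hr'
      have := h.2.2.1 (rx r) hr hr'
      rw [← rx_rx r, this]

theorem simple_ry : ∀ (l : List (ℚ × ℚ)), Simple l → Simple (l.map ry)
  | [], _ => trivial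
  | [_], _ => trivial
  | p :: q :: l, h => by
    have ih := simple_ry (q :: l) h.2.2.2
    rw [simple_cons2] at h
    simp only [List.map_cons] at ih ⊢
    rw [simple_cons2]
    refine ⟨?_, ?_, ?_, ih⟩
    · rcases h.1 with h1 | h1
      · left; simp [ry, h1]
      · right; simp [ry, h1]
    · intro h1; apply h.2.1; rw [← ry_ry p, h1, ry_ry]
    · intro r hr hr'
      rw [← ry_ry r, seg_ry] at hr
      have e := trace_ry (q :: l) (ry r)
      rw [ry_ry, List.map_cons] at e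
      rw [e] at hr'
      have := h.2.2.1 (ry r) hr hr'
      rw [← ry_ry r, this]

theorem simple_tr : ∀ (l : List (ℚ × ℚ)), Simple l → Simple (l.map tr)
  | [], _ => trivial
  | [_], _ => trivial
  | p :: q :: l, h => by
    have ih := simple_tr (q :: l) h.2.2.2
    rw [simple_cons2] at h
    simp only [List.map_cons] at ih ⊢
    rw [simple_cons2]
    refine ⟨?_, ?_, ?_, ih⟩
    · rcases h.1 with h1 | h1
      · right; simp [tr, h1]
      · left; simp [tr, h1]
    · intro h1; apply h.2.1; rw [← tr_tr p, h1, tr_tr]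
    · intro r hr hr'
      rw [← tr_tr r, seg_tr] at hr
      have e := trace_tr (q :: l) (tr r)
      rw [tr_tr, List.map_cons] at e
      rw [e] at hr'
      have := h.2.2.1 (tr r) hr hr'
      rw [← tr_tr r, this]

theorem hcov_rx : ∀ (l : List (ℚ × ℚ)) (r : ℚ × ℚ), rx r ∈ hcov (l.map rx) ↔ r ∈ hcov l
  | [], _ => Iff.rfl
  | [_], _ => Iff.rfl
  | p :: q :: l, r => by
    have := hcov_rx (q :: l) r
    simp only [List.map_cons] at this ⊢
    rw [hcov, hcov, Set.mem_union, Set.mem_union, this]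
    simp only [Set.mem_ofPred_eq, rx]
    rw [neg_seg']

theorem vcov_rx : ∀ (l : List (ℚ × ℚ)) (r : ℚ × ℚ), rx r ∈ vcov (l.map rx) ↔ r ∈ vcov l
  | [], _ => Iff.rfl
  | [_], _ => Iff.rfl
  | p :: q :: l, r => by
    have := vcov_rx (q :: l) r
    simp only [List.map_cons] at this ⊢
    rw [vcov, vcov, Set.mem_union, Set.mem_union, this]
    simp only [Set.mem_ofPred_eq, rx]
    rw [neg_inj, neg_inj]

theorem hcov_ry : ∀ (l : List (ℚ × ℚ)) (r : ℚ × ℚ), ry r ∈ hcov (l.map ry) ↔ r ∈ hcov l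
  | [], _ => Iff.rfl
  | [_], _ => Iff.rfl
  | p :: q :: l, r => by
    have := hcov_ry (q :: l) r
    simp only [List.map_cons] at this ⊢
    rw [hcov, hcov, Set.mem_union, Set.mem_union, this]
    simp only [Set.mem_ofPred_eq, ry]
    rw [neg_inj, neg_inj]

theorem vcov_ry : ∀ (l : List (ℚ × ℚ)) (r : ℚ × ℚ), ry r ∈ vcov (l.map ry) ↔ r ∈ vcov l
  | [], _ => Iff.rfl
  | [_], _ => Iff.rfl
  | p :: q :: l, r => by
    have := vcov_ry (q :: l) r
    simp only [List.map_cons] at this ⊢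
    rw [vcov, vcov, Set.mem_union, Set.mem_union, this]
    simp only [Set.mem_ofPred_eq, ry]
    rw [neg_seg']

theorem hcov_tr : ∀ (l : List (ℚ × ℚ)) (r : ℚ × ℚ), tr r ∈ hcov (l.map tr) ↔ r ∈ vcov l
  | [], _ => Iff.rfl
  | [_], _ => Iff.rfl
  | p :: q :: l, r => by
    have := hcov_tr (q :: l) r
    simp only [List.map_cons] at this ⊢
    rw [hcov, vcov, Set.mem_union, Set.mem_union, this]
    simp only [Set.mem_ofPred_eq, tr]

theorem vcov_tr : ∀ (l : List (ℚ × ℚ)) (r : ℚ × ℚ), tr r ∈ vcov (l.map tr) ↔ r ∈ hcov l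
  | [], _ => Iff.rfl
  | [_], _ => Iff.rfl
  | p :: q :: l, r => by
    have := vcov_tr (q :: l) r
    simp only [List.map_cons] at this ⊢
    rw [hcov, vcov, Set.mem_union, Set.mem_union, this]
    simp only [Set.mem_ofPred_eq, tr]

theorem hcov_rx' (l : List (ℚ × ℚ)) : hcov (l.map rx) = rx ⁻¹' hcov l := by
  ext r
  rw [Set.mem_preimage, ← hcov_rx l (rx r), rx_rx]

theorem vcov_rx' (l : List (ℚ × ℚ)) : vcov (l.map rx) = rx ⁻¹' vcov l := by
  ext r
  rw [Set.mem_preimage, ← vcov_rx l (rx r), rx_rx]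

theorem hcov_ry' (l : List (ℚ × ℚ)) : hcov (l.map ry) = ry ⁻¹' hcov l := by
  ext r
  rw [Set.mem_preimage, ← hcov_ry l (ry r), ry_ry]

theorem vcov_ry' (l : List (ℚ × ℚ)) : vcov (l.map ry) = ry ⁻¹' vcov l := by
  ext r
  rw [Set.mem_preimage, ← vcov_ry l (ry r), ry_ry]

theorem hcov_tr' (l : List (ℚ × ℚ)) : hcov (l.map tr) = tr ⁻¹' vcov l := by
  ext r
  rw [Set.mem_preimage, ← hcov_tr l (tr r), tr_tr]

theorem vcov_tr' (l : List (ℚ × ℚ)) : vcov (l.map tr) = tr ⁻¹' hcov l := by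
  ext r
  rw [Set.mem_preimage, ← vcov_tr l (tr r), tr_tr]

theorem map_rx_rx (l : List (ℚ × ℚ)) : (l.map rx).map rx = l := by
  rw [List.map_map]
  conv_rhs => rw [← List.map_id l]
  exact List.map_congr_left (fun p _ => rx_rx p)

theorem map_ry_ry (l : List (ℚ × ℚ)) : (l.map ry).map ry = l := by
  rw [List.map_map]
  conv_rhs => rw [← List.map_id l]
  exact List.map_congr_left (fun p _ => ry_ry p)

theorem map_tr_tr (l : List (ℚ × ℚ)) : (l.map tr).map tr = l := by
  rw [List.map_map]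
  conv_rhs => rw [← List.map_id l]
  exact List.map_congr_left (fun p _ => tr_tr p)

theorem pre_rx_rx (S : Set (ℚ × ℚ)) : rx ⁻¹' (rx ⁻¹' S) = S := by
  ext r; rw [Set.mem_preimage, Set.mem_preimage, rx_rx]

theorem pre_ry_ry (S : Set (ℚ × ℚ)) : ry ⁻¹' (ry ⁻¹' S) = S := by
  ext r; rw [Set.mem_preimage, Set.mem_preimage, ry_ry]

theorem pre_tr_tr (S : Set (ℚ × ℚ)) : tr ⁻¹' (tr ⁻¹' S) = S := by
  ext r; rw [Set.mem_preimage, Set.mem_preimage, tr_tr]

end Pool.Agent.EPG
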