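import Mathlib
import Pool.Agent.Lib_helper32.EPG.Top

/-!
# Simple treewidth at most `k` implies simple treewidth at most `k + 1`
-/

set_option autoImplicit false

namespace Pool.Agent.EPG

/-- `T` together with a dominating vertex, which comes first -/
def apex {n : ℕ} (T : SimpleGraph (Fin n)) : SimpleGraph (Fin (n + 1)) where
  Adj u v := u ≠ v ∧ (u = 0 ∨ v = 0 ∨ ∃ a b, u = Fin.succ a ∧ v = Fin.succ b ∧ T.Adj a b)
  symm := ⟨fun u v h => ⟨h.1.symm, by
    rcases h.2 with h | h | ⟨a, b, h1, h2, h3⟩
    · exact Or.inr (Or.inl h)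
    · exact Or.inl h
    · exact Or.inr (Or.inr ⟨b, a, h2, h1, h3.symm⟩)⟩⟩
  loopless := ⟨fun _ h => h.1 rfl⟩

theorem apex_succ {n : ℕ} (T : SimpleGraph (Fin n)) (a b : Fin n) :
    (apex T).Adj a.succ b.succ ↔ T.Adj a b := by
  constructor
  · rintro ⟨_, h | h | ⟨a', b', h1, h2, h3⟩⟩
    · exact absurd h (Fin.succ_ne_zero a)
    · exact absurd h (Fin.succ_ne_zero b)
    · rw [Fin.succ_inj] at h1 h2
      rw [h1, h2]; exact h3
  · intro h
    exact ⟨fun h1 => h.ne (Fin.succ_injective n h1), Or.inr (Or.inr ⟨a, b, rfl, rfl, h⟩)⟩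

theorem apex_zero {n : ℕ} (T : SimpleGraph (Fin n)) (b : Fin n) : (apex T).Adj 0 b.succ :=
  ⟨(Fin.succ_ne_zero b).symm, Or.inl rfl⟩

theorem back_apex {n : ℕ} (T : SimpleGraph (Fin n)) (i : Fin n) :
    back (apex T) i.succ = insert 0 ((back T i).map (Fin.succEmb n)) := by
  ext j
  rw [mem_back, Finset.mem_insert, Finset.mem_map]
  refine Fin.cases ?_ ?_ j
  · refine ⟨fun _ => Or.inl rfl, fun _ => ⟨Fin.succ_pos i, apex_zero T i⟩⟩
  · intro j'
    rw [apex_succ, Fin.succ_lt_succ_iff]
    constructor
    · intro h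
      exact Or.inr ⟨j', mem_back.2 h, rfl⟩
    · rintro (h | ⟨a, h1, h2⟩)
      · exact absurd h (Fin.succ_ne_zero j')
      · have : a = j' := Fin.succ_injective n h2
        subst this
        exact mem_back.1 h1

theorem apex_tree {n k : ℕ} {T : SimpleGraph (Fin n)} (h : IsSimpleKTree k n T) :
    IsSimpleKTree (k + 1) (n + 1) (apex T) where
  le := by have := h.le; omega
  base := by
    intro i j
    refine Fin.cases ?_ ?_ i <;> refine Fin.cases ?_ ?_ j
    · intro _ _ h3; exact absurd rfl h3
    · intro j' _ _ _; exact apex_zero T j'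
    · intro i' _ _ _; exact (apex_zero T i').symm
    · intro j' i' h1 h2 h3
      rw [apex_succ]
      rw [Fin.val_succ] at h1 h2
      exact h.base i' j' (by omega) (by omega) (fun h4 => h3 (by rw [h4]))
  card := by
    intro i
    refine Fin.cases ?_ ?_ i
    · intro h1; simp at h1
    · intro i' h1
      rw [Fin.val_succ] at h1
      rw [back_apex, Finset.card_insert_of_notMem, Finset.card_map, h.card i' (by omega)]
      rw [Finset.mem_map]
      rintro ⟨a, _, h2⟩
      exact Fin.succ_ne_zero a h2
  clique := by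
    intro i
    refine Fin.cases ?_ ?_ i
    · intro h1; simp at h1
    · intro i' h1
      rw [Fin.val_succ] at h1
      have hc := h.clique i' (by omega)
      rw [back_apex]
      intro u hu v hv huv
      rw [Finset.mem_coe, Finset.mem_insert, Finset.mem_map] at hu hv
      rcases hu with hu | ⟨a, ha, hu⟩ <;> rcases hv with hv | ⟨b, hb, hv⟩
      · exact absurd (hu.trans hv.symm) huv
      · rw [hu, ← hv]; exact apex_zero T b
      · rw [hv, ← hu]; exact (apex_zero T a).symm
      · rw [← hu, ← hv] at huv ⊢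
        exact (apex_succ T a b).2 (hc ha hb (fun h4 => huv (by rw [h4])))
  simple := by
    intro i j
    refine Fin.cases ?_ ?_ i <;> refine Fin.cases ?_ ?_ j
    · intro _ _ _; rfl
    · intro j' h1 _ _; simp at h1
    · intro i' _ h2 _; simp at h2
    · intro j' i' h1 h2 h3
      rw [Fin.val_succ] at h1 h2
      rw [back_apex, back_apex] at h3
      have h4 : back T i' = back T j' := by
        ext a
        have h5 : a.succ ∈ insert 0 ((back T i').map (Fin.succEmb n)) ↔
            a.succ ∈ insert 0 ((back T j').map (Fin.succEmb n)) := by rw [h3]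
        rw [Finset.mem_insert, Finset.mem_insert, Finset.mem_map, Finset.mem_map] at h5
        constructor
        · intro ha
          rcases h5.1 (Or.inr ⟨a, ha, rfl⟩) with h6 | ⟨b, hb, h6⟩
          · exact absurd h6 (Fin.succ_ne_zero a)
          · have : b = a := Fin.succ_injective n h6
            exact this ▸ hb
        · intro ha
          rcases h5.2 (Or.inr ⟨a, ha, rfl⟩) with h6 | ⟨b, hb, h6⟩
          · exact absurd h6 (Fin.succ_ne_zero a)
          · have : b = a := Fin.succ_injective n h6
            exact this ▸ hb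
      rw [h.simple i' j' (by omega) (by omega) h4]

theorem stw_succ {V : Type*} (G : SimpleGraph V) (k : ℕ) (h : StwLE k G) : StwLE (k + 1) G := by
  obtain ⟨n, T, hT, f, hf⟩ := h
  refine ⟨n + 1, apex T, apex_tree hT, f.trans (Fin.succEmb n), fun u v huv => ?_⟩
  exact (apex_succ T _ _).2 (hf u v huv)

theorem stw_mono {V : Type*} (G : SimpleGraph V) {k' k : ℕ} (hk : k' ≤ k) (h : StwLE k' G) :
    StwLE k G := by
  obtain ⟨d, rfl⟩ := Nat.exists_eq_add_of_le hk
  clear hk
  induction d with
  | zero => exact h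
  | succ d ih => exact stw_succ G (k' + d) ih

end Pool.Agent.EPG
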