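import Mathlib
import Pool.Agent.Lib_helper32.EPG.Top
import Pool.Agent.Lib_helper32.EPG.Poly

/-!
# From rational polylines to grid paths
-/

set_option autoImplicit false

namespace Pool.Agent.EPG

/-! ## straight runs -/

/-- `m` steps from `p` in direction `d`, followed by the list `t` -/
def line (d : ℤ × ℤ) : ℕ → ℤ × ℤ → List (ℤ × ℤ) → List (ℤ × ℤ)
  | 0, _, t => t
  | m + 1, p, t => p :: line d m (p + d) t

/-- unit directions -/
def IsUnit4 (d : ℤ × ℤ) : Prop := d = (1, 0) ∨ d = (-1, 0) ∨ d = (0, 1) ∨ d = (0, -1)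

theorem line_mem (d : ℤ × ℤ) (m : ℕ) (p : ℤ × ℤ) (t : List (ℤ × ℤ)) (r : ℤ × ℤ) :
    r ∈ line d m p t ↔ (∃ i : ℕ, i < m ∧ r = p + (i : ℤ) • d) ∨ r ∈ t := by
  induction m generalizing p with
  | zero => simp [line]
  | succ m ih =>
    rw [line, List.mem_cons, ih]
    constructor
    · rintro (h | ⟨i, hi, h⟩ | h)
      · exact Or.inl ⟨0, by omega, by simpa using h⟩
      · refine Or.inl ⟨i + 1, by omega, ?_⟩
        rw [h]; push_cast; rw [add_smul, one_smul]; abel
      · exact Or.inr h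
    · rintro (⟨i, hi, h⟩ | h)
      · rcases i with _ | i
        · left; simpa using h
        · right; left
          refine ⟨i, by omega, ?_⟩
          rw [h]; push_cast; rw [add_smul, one_smul]; abel
      · exact Or.inr (Or.inr h)

theorem line_head (d : ℤ × ℤ) (m : ℕ) (p : ℤ × ℤ) (t : List (ℤ × ℤ)) :
    ∃ s, line d m p ((p + (m : ℤ) • d) :: t) = p :: s := by
  rcases m with _ | m
  · exact ⟨t, by simp [line]⟩
  · exact ⟨_, rfl⟩

theorem step_eq (d : ℤ × ℤ) (m : ℕ) (p : ℤ × ℤ) :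
    p + ((m + 1 : ℕ) : ℤ) • d = (p + d) + (m : ℤ) • d := by
  push_cast; rw [add_smul, one_smul]; abel

theorem gadj_step {d : ℤ × ℤ} (hd : IsUnit4 d) (p : ℤ × ℤ) : GAdj p (p + d) := by
  unfold GAdj
  rcases hd with h | h | h | h <;> subst h <;> simp

theorem line_chain {d : ℤ × ℤ} (hd : IsUnit4 d) (m : ℕ) (p : ℤ × ℤ) (t : List (ℤ × ℤ))
    (ht : List.IsChain GAdj ((p + (m : ℤ) • d) :: t)) :
    List.IsChain GAdj (line d m p ((p + (m : ℤ) • d) :: t)) := by
  induction m generalizing p with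
  | zero => simpa [line] using ht
  | succ m ih =>
    rw [step_eq] at ht ⊢
    have h1 := ih (p + d) ht
    obtain ⟨s, hs⟩ := line_head d m (p + d) t
    rw [line]
    rw [hs] at h1 ⊢
    exact List.IsChain.cons_cons (gadj_step hd p) h1

theorem line_nodup {d : ℤ × ℤ} (hd : d ≠ 0) (m : ℕ) (p : ℤ × ℤ) (t : List (ℤ × ℤ))
    (ht : t.Nodup) (h : ∀ i : ℕ, i < m → p + (i : ℤ) • d ∉ t) :
    (line d m p t).Nodup := by
  induction m generalizing p with
  | zero => simpa [line] using ht
  | succ m ih =>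
    rw [line, List.nodup_cons]
    refine ⟨?_, ih (p + d) ?_⟩
    · rw [line_mem]
      rintro (⟨i, hi, h1⟩ | h1)
      · rw [← step_eq] at h1
        have h2 : ((i + 1 : ℕ) : ℤ) • d = 0 := by
          have := h1
          rw [left_eq_add] at this
          exact this
        rcases smul_eq_zero.1 h2 with h3 | h3
        · simp at h3; omega
        · exact hd h3
      · exact h 0 (by omega) (by simpa using h1)
    · intro i hi
      rw [← step_eq]
      exact h (i + 1) (by omega)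

theorem bends_cons_le (p : ℤ × ℤ) (t : List (ℤ × ℤ)) : bends (p :: t) ≤ bends t + 1 := by
  rcases t with _ | ⟨q, _ | ⟨r, l⟩⟩
  · simp [bends]
  · simp [bends]
  · rw [bends]; split_ifs <;> omega

theorem line_bends (d : ℤ × ℤ) (m : ℕ) (p : ℤ × ℤ) (t : List (ℤ × ℤ)) :
    bends (line d m p ((p + (m : ℤ) • d) :: t)) ≤
      bends ((p + (m : ℤ) • d) :: t) + (if t = [] then 0 else 1) := by
  induction m generalizing p with
  | zero => simp [line]
  | succ m ih =>
    rw [step_eq]
    rw [line]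
    rcases m with _ | m
    · rw [line]
      split_ifs with h
      · subst h; simp [bends]
      · exact bends_cons_le _ _
    · have h1 := ih (p + d)
      rw [step_eq] at h1 ⊢
      rw [line] at h1 ⊢
      obtain ⟨s, hs⟩ := line_head d m (p + d + d) t
      rw [hs] at h1 ⊢
      have h2 : bends (p :: (p + d) :: (p + d + d) :: s) = bends ((p + d) :: (p + d + d) :: s) := by
        rw [bends]
        have : (p.2 = (p + d).2 ↔ (p + d).2 = (p + d + d).2) := by
          simp
        rw [if_pos this, zero_add]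
      rw [h2]
      exact h1

theorem line_edges (d : ℤ × ℤ) (m : ℕ) (p : ℤ × ℤ) (t : List (ℤ × ℤ)) (e : Sym2 (ℤ × ℤ)) :
    e ∈ gridEdges (line d m p ((p + (m : ℤ) • d) :: t)) ↔
      (∃ i : ℕ, i < m ∧ e = s(p + (i : ℤ) • d, p + (i : ℤ) • d + d)) ∨
        e ∈ gridEdges ((p + (m : ℤ) • d) :: t) := by
  induction m generalizing p with
  | zero => simp [line]
  | succ m ih =>
    have h1 := ih (p + d)
    rw [← step_eq] at h1
    rw [line]
    have hs : ∃ s, line d m (p + d) ((p + ((m + 1 : ℕ) : ℤ) • d) :: t) = (p + d) :: s := by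
      rw [step_eq]; exact line_head d m (p + d) t
    obtain ⟨s, hs⟩ := hs
    rw [hs] at h1 ⊢
    rw [gridEdges, Set.mem_insert_iff, h1]
    constructor
    · rintro (h | ⟨i, hi, h⟩ | h)
      · exact Or.inl ⟨0, by omega, by simpa using h⟩
      · refine Or.inl ⟨i + 1, by omega, ?_⟩
        rw [step_eq]; exact h
      · exact Or.inr h
    · rintro (⟨i, hi, h⟩ | h)
      · rcases i with _ | i
        · left; simpa using h
        · right; left
          refine ⟨i, by omega, ?_⟩
          rw [step_eq] at h; exact h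
      · exact Or.inr (Or.inr h)

/-! ## expansion of an integer polyline -/

/-- direction from `p` to `q` -/
def dir (p q : ℤ × ℤ) : ℤ × ℤ := (Int.sign (q.1 - p.1), Int.sign (q.2 - p.2))

/-- distance from `p` to `q` -/
def len (p q : ℤ × ℤ) : ℕ := (q.1 - p.1).natAbs + (q.2 - p.2).natAbs

/-- the grid path of an integer polyline -/
def expand : List (ℤ × ℤ) → List (ℤ × ℤ)
  | p :: q :: l => line (dir p q) (len p q) p (expand (q :: l))
  | l => l

/-- `p` and `q` are different and on a common axis parallel line -/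
def Ax (p q : ℤ × ℤ) : Prop := (p.1 = q.1 ∨ p.2 = q.2) ∧ p ≠ q

theorem ax_end {p q : ℤ × ℤ} (h : Ax p q) : p + (len p q : ℤ) • dir p q = q := by
  obtain ⟨p1, p2⟩ := p
  obtain ⟨q1, q2⟩ := q
  unfold dir len
  rcases h.1 with h1 | h1
  · simp only at h1
    subst h1
    ext
    · simp
    · simp only [sub_self, Int.natAbs_zero, zero_add, Int.sign_zero, Prod.smul_mk, smul_eq_mul,
        mul_zero, Prod.mk_add_mk, add_zero]
      rw [mul_comm, Int.sign_mul_natAbs]
      ring
  · simp only at h1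
    subst h1
    ext
    · simp only [sub_self, Int.natAbs_zero, add_zero, Int.sign_zero, Prod.smul_mk, smul_eq_mul,
        mul_zero, Prod.mk_add_mk]
      rw [mul_comm, Int.sign_mul_natAbs]
      ring
    · simp

theorem ax_unit {p q : ℤ × ℤ} (h : Ax p q) : IsUnit4 (dir p q) := by
  obtain ⟨p1, p2⟩ := p
  obtain ⟨q1, q2⟩ := q
  obtain ⟨h1, h2⟩ := h
  unfold dir IsUnit4
  rcases h1 with h1 | h1
  · simp only at h1
    subst h1
    have h3 : q2 - p2 ≠ 0 := by
      intro h4
      apply h2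
      rw [Prod.mk.injEq]
      exact ⟨rfl, by omega⟩
    rcases lt_or_gt_of_ne h3 with h4 | h4
    · right; right; right
      simp [Int.sign_eq_neg_one_of_neg h4]
    · right; right; left
      simp [Int.sign_eq_one_of_pos h4]
  · simp only at h1
    subst h1
    have h3 : q1 - p1 ≠ 0 := by
      intro h4
      apply h2
      rw [Prod.mk.injEq]
      exact ⟨by omega, rfl⟩
    rcases lt_or_gt_of_ne h3 with h4 | h4
    · right; left
      simp [Int.sign_eq_neg_one_of_neg h4]
    · left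
      simp [Int.sign_eq_one_of_pos h4]

theorem ax_len {p q : ℤ × ℤ} (h : Ax p q) : 1 ≤ len p q := by
  by_contra hc
  have h0 : len p q = 0 := by omega
  apply h.2
  have := ax_end h
  rw [h0] at this
  simpa using this

theorem unit_ne_zero {d : ℤ × ℤ} (h : IsUnit4 d) : d ≠ 0 := by
  rcases h with h | h | h | h <;> subst h <;> simp

/-- consecutive points are different and axis parallel -/
def AxList : List (ℤ × ℤ) → Prop
  | p :: q :: l => Ax p q ∧ AxList (q :: l)
  | _ => True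

theorem expand_head (q : ℤ × ℤ) (l : List (ℤ × ℤ)) (h : AxList (q :: l)) :
    ∃ t, expand (q :: l) = q :: t ∧ (t = [] ↔ l = []) := by
  rcases l with _ | ⟨r, l⟩
  · exact ⟨[], rfl, by simp⟩
  · obtain ⟨h1, h2⟩ := h
    have h3 := ax_len h1
    obtain ⟨m, hm⟩ : ∃ m, len q r = m + 1 := ⟨len q r - 1, by omega⟩
    refine ⟨line (dir q r) m (q + dir q r) (expand (r :: l)), ?_, ?_⟩
    · rw [expand, hm, line]
    · simp only [reduceCtorEq, iff_false]
      rcases m with _ | m
      · rw [line]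
        rcases l with _ | ⟨r', l⟩
        · simp [expand]
        · rw [expand]
          have h4 := ax_len h2.1
          obtain ⟨m', hm'⟩ : ∃ m', len r r' = m' + 1 := ⟨len r r' - 1, by omega⟩
          rw [hm', line]
          simp
      · rw [line]; simp

theorem expand_cons {p q : ℤ × ℤ} {l : List (ℤ × ℤ)} (h : AxList (p :: q :: l)) :
    ∃ t, expand (q :: l) = q :: t ∧ (t = [] ↔ l = []) ∧
      expand (p :: q :: l) = line (dir p q) (len p q) p ((p + (len p q : ℤ) • dir p q) :: t) := by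
  obtain ⟨t, ht, ht2⟩ := expand_head q l h.2
  refine ⟨t, ht, ht2, ?_⟩
  rw [expand, ht, ax_end h.1]

theorem expand_chain : ∀ (l : List (ℤ × ℤ)), AxList l → List.IsChain GAdj (expand l)
  | [], _ => by simp [expand]
  | [p], _ => by simp [expand]
  | p :: q :: l, h => by
    obtain ⟨t, ht, _, h2⟩ := expand_cons h
    rw [h2]
    apply line_chain (ax_unit h.1)
    rw [ax_end h.1, ← ht]
    exact expand_chain (q :: l) h.2

theorem expand_bends : ∀ (l : List (ℤ × ℤ)), AxList l → bends (expand l) ≤ l.length - 2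
  | [], _ => by simp [expand, bends]
  | [p], _ => by simp [expand, bends]
  | p :: q :: l, h => by
    obtain ⟨t, ht, ht2, h2⟩ := expand_cons h
    rw [h2]
    refine le_trans (line_bends _ _ _ _) ?_
    rw [ax_end h.1, ← ht]
    have ih := expand_bends (q :: l) h.2
    rcases l with _ | ⟨r, l⟩
    · rw [if_pos (ht2.2 rfl)]
      simpa using ih
    · rw [if_neg (fun h3 => by simpa using ht2.1 h3)]
      simp only [List.length_cons] at ih ⊢
      omega

/-- the integer points of the trace -/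
def itrace : List (ℤ × ℤ) → Set (ℤ × ℤ)
  | p :: q :: l => {r | r.1 ∈ Set.uIcc p.1 q.1 ∧ r.2 ∈ Set.uIcc p.2 q.2} ∪ itrace (q :: l)
  | _ => ∅

theorem ax_point {p q : ℤ × ℤ} (h : Ax p q) (i : ℕ) (hi : i < len p q) :
    (p + (i : ℤ) • dir p q).1 ∈ Set.uIcc p.1 q.1 ∧ (p + (i : ℤ) • dir p q).2 ∈ Set.uIcc p.2 q.2 ∧
      p + (i : ℤ) • dir p q ≠ q := by
  have hu := ax_unit h
  have he := ax_end h
  clear h
  generalize dir p q = d at *
  generalize len p q = m at *
  obtain ⟨p1, p2⟩ := p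
  obtain ⟨q1, q2⟩ := q
  have e1 : p1 + (m : ℤ) * d.1 = q1 := by
    have := congrArg Prod.fst he; simpa using this
  have e2 : p2 + (m : ℤ) * d.2 = q2 := by
    have := congrArg Prod.snd he; simpa using this
  have hi' : (i : ℤ) < m := by exact_mod_cast hi
  have hi0 : (0 : ℤ) ≤ i := by positivity
  rw [Set.mem_uIcc, Set.mem_uIcc, Ne, Prod.ext_iff]
  simp only [Prod.fst_add, Prod.snd_add, Prod.smul_fst, Prod.smul_snd, smul_eq_mul]
  rcases hu with h1 | h1 | h1 | h1 <;> rw [h1] at e1 e2 ⊢ <;> simp only [] at e1 e2 ⊢ <;>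
    refine ⟨?_, ?_, ?_⟩ <;> omega

theorem expand_sub : ∀ (l : List (ℤ × ℤ)), AxList l → 2 ≤ l.length →
    ∀ r ∈ expand l, r ∈ itrace l
  | [], _, h => by simp at h
  | [p], _, h => by simp at h
  | [p, q], h, _ => by
    intro r hr
    rw [expand, line_mem] at hr
    left
    rcases hr with ⟨i, hi, h1⟩ | h1
    · have := ax_point h.1 i hi
      rw [h1]
      exact ⟨this.1, this.2.1⟩
    · simp only [expand, List.mem_singleton] at h1
      subst h1
      exact ⟨Set.right_mem_uIcc, Set.right_mem_uIcc⟩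
  | p :: q :: r' :: l, h, _ => by
    intro r hr
    rw [expand, line_mem] at hr
    rcases hr with ⟨i, hi, h1⟩ | h1
    · left
      have := ax_point h.1 i hi
      rw [h1]
      exact ⟨this.1, this.2.1⟩
    · right
      exact expand_sub (q :: r' :: l) h.2 (by simp) r h1

/-- the simplicity condition for integer polylines -/
def ISimple : List (ℤ × ℤ) → Prop
  | p :: q :: l => Ax p q ∧
      (∀ r : ℤ × ℤ, r.1 ∈ Set.uIcc p.1 q.1 → r.2 ∈ Set.uIcc p.2 q.2 → r ∈ itrace (q :: l) → r = q) ∧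
      ISimple (q :: l)
  | _ => True

theorem isimple_ax : ∀ (l : List (ℤ × ℤ)), ISimple l → AxList l
  | [], _ => trivial
  | [_], _ => trivial
  | _ :: q :: l, h => ⟨h.1, isimple_ax (q :: l) h.2.2⟩

theorem expand_nodup : ∀ (l : List (ℤ × ℤ)), ISimple l → (expand l).Nodup
  | [], _ => by simp [expand]
  | [p], _ => by simp [expand]
  | p :: q :: l, h => by
    rw [expand]
    refine line_nodup (unit_ne_zero (ax_unit h.1)) _ _ _ (expand_nodup (q :: l) h.2.2) ?_
    intro i hi hmem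
    have h1 := ax_point h.1 i hi
    rcases l with _ | ⟨r', l⟩
    · simp only [expand, List.mem_singleton] at hmem
      exact h1.2.2 hmem
    · have h2 := expand_sub (q :: r' :: l) (isimple_ax _ h.2.2) (by simp) _ hmem
      exact h1.2.2 (h.2.1 _ h1.1 h1.2.1 h2)

theorem line_length (d : ℤ × ℤ) (m : ℕ) (p : ℤ × ℤ) (t : List (ℤ × ℤ)) :
    (line d m p t).length = m + t.length := by
  induction m generalizing p with
  | zero => simp [line]
  | succ m ih => rw [line, List.length_cons, ih]; ring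

theorem expand_length : ∀ (l : List (ℤ × ℤ)), AxList l → l.length ≤ (expand l).length
  | [], _ => by simp [expand]
  | [p], _ => by simp [expand]
  | p :: q :: l, h => by
    rw [expand, line_length]
    have := expand_length (q :: l) h.2
    have := ax_len h.1
    simp only [List.length_cons] at *
    omega

theorem expand_path (l : List (ℤ × ℤ)) (h : ISimple l) (h2 : 2 ≤ l.length) :
    IsGridPath (expand l) where
  two_le := le_trans h2 (expand_length l (isimple_ax l h))
  chain := expand_chain l (isimple_ax l h)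
  nodup := expand_nodup l h

/-! ## the edges of the expansion -/

/-- left end points of the horizontal unit edges -/
def hE : List (ℤ × ℤ) → Set (ℤ × ℤ)
  | p :: q :: l => {r | p.2 = r.2 ∧ q.2 = r.2 ∧ min p.1 q.1 ≤ r.1 ∧ r.1 + 1 ≤ max p.1 q.1} ∪
      hE (q :: l)
  | _ => ∅

/-- lower end points of the vertical unit edges -/
def vE : List (ℤ × ℤ) → Set (ℤ × ℤ)
  | p :: q :: l => {r | p.1 = r.1 ∧ q.1 = r.1 ∧ min p.2 q.2 ≤ r.2 ∧ r.2 + 1 ≤ max p.2 q.2} ∪
      vE (q :: l)
  | _ => ∅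

/-- the edges of one run -/
theorem run_edges {p q : ℤ × ℤ} (h : Ax p q) (e : Sym2 (ℤ × ℤ)) :
    (∃ i : ℕ, i < len p q ∧ e = s(p + (i : ℤ) • dir p q, p + (i : ℤ) • dir p q + dir p q)) ↔
      (∃ r : ℤ × ℤ, (p.2 = r.2 ∧ q.2 = r.2 ∧ min p.1 q.1 ≤ r.1 ∧ r.1 + 1 ≤ max p.1 q.1) ∧
        e = s(r, r + (1, 0))) ∨
      (∃ r : ℤ × ℤ, (p.1 = r.1 ∧ q.1 = r.1 ∧ min p.2 q.2 ≤ r.2 ∧ r.2 + 1 ≤ max p.2 q.2) ∧
        e = s(r, r + (0, 1))) := by
  have hu := ax_unit h
  have he := ax_end h
  clear h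
  generalize dir p q = d at *
  generalize len p q = m at *
  obtain ⟨p1, p2⟩ := p
  obtain ⟨q1, q2⟩ := q
  have e1 : p1 + (m : ℤ) * d.1 = q1 := by
    have := congrArg Prod.fst he; simpa using this
  have e2 : p2 + (m : ℤ) * d.2 = q2 := by
    have := congrArg Prod.snd he; simpa using this
  rcases hu with h1 | h1 | h1 | h1 <;> rw [h1] at e1 e2 ⊢ <;> simp only [mul_one, mul_zero,
    mul_neg, add_zero] at e1 e2 ⊢
  · subst e1 e2
    constructor
    · rintro ⟨i, hi, rfl⟩
      left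
      refine ⟨(p1 + i, p2), ⟨rfl, rfl, ?_, ?_⟩, ?_⟩
      · simp only []; omega
      · simp only []; omega
      · simp
    · rintro (⟨⟨r1, r2⟩, ⟨a, b, c, c'⟩, rfl⟩ | ⟨⟨r1, r2⟩, ⟨a, b, c, c'⟩, rfl⟩)
      · simp only [] at a b c c'
        subst a
        refine ⟨(r1 - p1).toNat, by omega, ?_⟩
        have : (((r1 - p1).toNat : ℕ) : ℤ) = r1 - p1 := by omega
        rw [this]
        simp
      · simp only [] at a b c c'
        omega
  · subst e1 e2
    constructor
    · rintro ⟨i, hi, rfl⟩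
      left
      refine ⟨(p1 - i - 1, p2), ⟨rfl, rfl, ?_, ?_⟩, ?_⟩
      · simp only []; omega
      · simp only []; omega
      · rw [Sym2.eq_swap]
        simp [sub_eq_add_neg]
    · rintro (⟨⟨r1, r2⟩, ⟨a, b, c, c'⟩, rfl⟩ | ⟨⟨r1, r2⟩, ⟨a, b, c, c'⟩, rfl⟩)
      · simp only [] at a b c c'
        subst a
        refine ⟨(p1 - r1 - 1).toNat, by omega, ?_⟩
        have : (((p1 - r1 - 1).toNat : ℕ) : ℤ) = p1 - r1 - 1 := by omega
        rw [this, Sym2.eq_swap]
        simp
        omega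
      · simp only [] at a b c c'
        omega
  · subst e1 e2
    constructor
    · rintro ⟨i, hi, rfl⟩
      right
      refine ⟨(p1, p2 + i), ⟨rfl, rfl, ?_, ?_⟩, ?_⟩
      · simp only []; omega
      · simp only []; omega
      · simp
    · rintro (⟨⟨r1, r2⟩, ⟨a, b, c, c'⟩, rfl⟩ | ⟨⟨r1, r2⟩, ⟨a, b, c, c'⟩, rfl⟩)
      · simp only [] at a b c c'
        omega
      · simp only [] at a b c c'
        subst a
        refine ⟨(r2 - p2).toNat, by omega, ?_⟩
        have : (((r2 - p2).toNat : ℕ) : ℤ) = r2 - p2 := by omega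
        rw [this]
        simp
  · subst e1 e2
    constructor
    · rintro ⟨i, hi, rfl⟩
      right
      refine ⟨(p1, p2 - i - 1), ⟨rfl, rfl, ?_, ?_⟩, ?_⟩
      · simp only []; omega
      · simp only []; omega
      · rw [Sym2.eq_swap]
        simp [sub_eq_add_neg]
    · rintro (⟨⟨r1, r2⟩, ⟨a, b, c, c'⟩, rfl⟩ | ⟨⟨r1, r2⟩, ⟨a, b, c, c'⟩, rfl⟩)
      · simp only [] at a b c c'
        omega
      · simp only [] at a b c c'
        subst a
        refine ⟨(p2 - r2 - 1).toNat, by omega, ?_⟩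
        have : (((p2 - r2 - 1).toNat : ℕ) : ℤ) = p2 - r2 - 1 := by omega
        rw [this, Sym2.eq_swap]
        simp
        omega

theorem expand_edges : ∀ (l : List (ℤ × ℤ)), AxList l → ∀ e : Sym2 (ℤ × ℤ),
    e ∈ gridEdges (expand l) ↔ (∃ r ∈ hE l, e = s(r, r + (1, 0))) ∨ (∃ r ∈ vE l, e = s(r, r + (0, 1)))
  | [], _ => by simp [expand, gridEdges, hE, vE]
  | [p], _ => by simp [expand, gridEdges, hE, vE]
  | p :: q :: l, h => by
    intro e
    obtain ⟨t, ht, ht2, h2⟩ := expand_cons h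
    rw [h2, line_edges, ax_end h.1, ← ht, expand_edges (q :: l) h.2 e, run_edges h.1 e]
    constructor
    · rintro ((⟨r, hr, he⟩ | ⟨r, hr, he⟩) | (⟨r, hr, he⟩ | ⟨r, hr, he⟩))
      · exact Or.inl ⟨r, Or.inl hr, he⟩
      · exact Or.inr ⟨r, Or.inl hr, he⟩
      · exact Or.inl ⟨r, Or.inr hr, he⟩
      · exact Or.inr ⟨r, Or.inr hr, he⟩
    · rintro (⟨r, hr | hr, he⟩ | ⟨r, hr | hr, he⟩)
      · exact Or.inl (Or.inl ⟨r, hr, he⟩)
      · exact Or.inr (Or.inl ⟨r, hr, he⟩)
      · exact Or.inl (Or.inr ⟨r, hr, he⟩)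
      · exact Or.inr (Or.inr ⟨r, hr, he⟩)

theorem edge_inj_h {r s : ℤ × ℤ} (h : s(r, r + ((1, 0) : ℤ × ℤ)) = s(s, s + (1, 0))) : r = s := by
  rw [Sym2.eq_iff] at h
  rcases h with ⟨h1, _⟩ | ⟨h1, h2⟩
  · exact h1
  · exfalso
    have e1 := congrArg Prod.fst h1
    have e2 := congrArg Prod.fst h2
    simp at e1 e2
    omega

theorem edge_inj_v {r s : ℤ × ℤ} (h : s(r, r + ((0, 1) : ℤ × ℤ)) = s(s, s + (0, 1))) : r = s := by
  rw [Sym2.eq_iff] at h
  rcases h with ⟨h1, _⟩ | ⟨h1, h2⟩
  · exact h1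
  · exfalso
    have e1 := congrArg Prod.snd h1
    have e2 := congrArg Prod.snd h2
    simp at e1 e2
    omega

theorem edge_ne_hv {r s : ℤ × ℤ} : s(r, r + ((1, 0) : ℤ × ℤ)) ≠ s(s, s + (0, 1)) := by
  intro h
  rw [Sym2.eq_iff] at h
  rcases h with ⟨h1, h2⟩ | ⟨h1, h2⟩
  · have e1 := congrArg Prod.fst h1
    have e2 := congrArg Prod.fst h2
    simp at e1 e2
    omega
  · have e1 := congrArg Prod.fst h1
    have e2 := congrArg Prod.fst h2
    simp at e1 e2
    omega

theorem edges_inter (l m : List (ℤ × ℤ)) (hl : AxList l) (hm : AxList m) :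
    (gridEdges (expand l) ∩ gridEdges (expand m)).Nonempty ↔
      (hE l ∩ hE m).Nonempty ∨ (vE l ∩ vE m).Nonempty := by
  constructor
  · rintro ⟨e, he1, he2⟩
    rw [expand_edges l hl] at he1
    rw [expand_edges m hm] at he2
    rcases he1 with ⟨r, hr, rfl⟩ | ⟨r, hr, rfl⟩
    · rcases he2 with ⟨s, hs, h⟩ | ⟨s, hs, h⟩
      · have := edge_inj_h h
        subst this
        exact Or.inl ⟨r, hr, hs⟩
      · exact absurd h edge_ne_hv
    · rcases he2 with ⟨s, hs, h⟩ | ⟨s, hs, h⟩
      · exact absurd h.symm edge_ne_hv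
      · have := edge_inj_v h
        subst this
        exact Or.inr ⟨r, hr, hs⟩
  · rintro (⟨r, h1, h2⟩ | ⟨r, h1, h2⟩)
    · exact ⟨s(r, r + (1, 0)), (expand_edges l hl _).2 (Or.inl ⟨r, h1, rfl⟩),
        (expand_edges m hm _).2 (Or.inl ⟨r, h2, rfl⟩)⟩
    · exact ⟨s(r, r + (0, 1)), (expand_edges l hl _).2 (Or.inr ⟨r, h1, rfl⟩),
        (expand_edges m hm _).2 (Or.inr ⟨r, h2, rfl⟩)⟩

end Pool.Agent.EPG
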