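import Mathlib
import Pool.Agent.Lib_helper32.EPG.Grid

/-!
# Discretization: a family of rational polylines gives an EPG representation
-/

set_option autoImplicit false

namespace Pool.Agent.EPG

/-- integer point divided by `D` -/
def up (D : ℕ) (p : ℤ × ℤ) : ℚ × ℚ := ((p.1 : ℚ) / D, (p.2 : ℚ) / D)

/-- the numerator with respect to the denominator `D` -/
def toI (D : ℕ) (x : ℚ) : ℤ := x.num * ((D / x.den : ℕ) : ℤ)

theorem toI_div {D : ℕ} (hD : 0 < D) {x : ℚ} (h : x.den ∣ D) : ((toI D x : ℤ) : ℚ) / D = x := by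
  obtain ⟨c, hc⟩ := h
  have hx : 0 < x.den := x.den_pos
  have h1 : D / x.den = c := by rw [hc]; exact Nat.mul_div_cancel_left c hx
  have hc0 : (c : ℚ) ≠ 0 := by
    have : c ≠ 0 := by rintro rfl; simp at hc; omega
    exact_mod_cast this
  have hx0 : ((x.den : ℕ) : ℚ) ≠ 0 := by exact_mod_cast hx.ne'
  unfold toI
  rw [h1, hc]
  push_cast
  have h2 : (x.num : ℚ) / (x.den : ℚ) = x := Rat.num_div_den x
  rw [mul_div_mul_right _ _ hc0]
  exact h2

theorem exists_scale {V : Type*} [Finite V] (C : V → List (ℚ × ℚ)) :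
    ∃ D : ℕ, 0 < D ∧ ∃ Z : V → List (ℤ × ℤ), ∀ v, C v = (Z v).map (up D) := by
  classical
  have := Fintype.ofFinite V
  set S : Finset ℚ := Finset.univ.biUnion
    (fun v => ((C v).toFinset.image Prod.fst ∪ (C v).toFinset.image Prod.snd)) with hS
  have hmem : ∀ v, ∀ p ∈ C v, p.1 ∈ S ∧ p.2 ∈ S := by
    intro v p hp
    simp only [hS, Finset.mem_biUnion, Finset.mem_univ, true_and, Finset.mem_union,
      Finset.mem_image, List.mem_toFinset]
    exact ⟨⟨v, Or.inl ⟨p, hp, rfl⟩⟩, ⟨v, Or.inr ⟨p, hp, rfl⟩⟩⟩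
  have hD : 0 < ∏ q ∈ S, q.den := Finset.prod_pos (fun q _ => q.den_pos)
  refine ⟨∏ q ∈ S, q.den, hD,
    fun v => (C v).map (fun p => (toI (∏ q ∈ S, q.den) p.1, toI (∏ q ∈ S, q.den) p.2)), ?_⟩
  intro v
  rw [List.map_map]
  symm
  conv_rhs => rw [← List.map_id (C v)]
  apply List.map_congr_left
  intro p hp
  obtain ⟨h1, h2⟩ := hmem v p hp
  simp only [Function.comp_apply, up, id_eq]
  rw [toI_div hD (Finset.dvd_prod_of_mem _ h1), toI_div hD (Finset.dvd_prod_of_mem _ h2)]

section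

variable {D : ℕ} (hD : 0 < D)

include hD

theorem div_le_iff' (a b : ℤ) : ((a : ℚ) / D ≤ (b : ℚ) / D) ↔ a ≤ b := by
  have h : (0 : ℚ) < D := by exact_mod_cast hD
  rw [div_le_div_iff_of_pos_right h]
  exact Int.cast_le

theorem div_eq_iff'' (a b : ℤ) : ((a : ℚ) / D = (b : ℚ) / D) ↔ a = b := by
  rw [le_antisymm_iff, div_le_iff' hD, div_le_iff' hD, ← le_antisymm_iff]

theorem up_inj {p q : ℤ × ℤ} (h : up D p = up D q) : p = q := by
  unfold up at h
  rw [Prod.mk.injEq, div_eq_iff'' hD, div_eq_iff'' hD] at h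
  exact Prod.ext h.1 h.2

theorem up_uIcc (a b c : ℤ) (h : c ∈ Set.uIcc a b) :
    (c : ℚ) / D ∈ Set.uIcc ((a : ℚ) / D) ((b : ℚ) / D) := by
  rw [Set.mem_uIcc] at h ⊢
  simp only [div_le_iff' hD]
  exact h

theorem up_trace : ∀ (l : List (ℤ × ℤ)) (r : ℤ × ℤ), r ∈ itrace l → up D r ∈ trace (l.map (up D))
  | [], _, h => by simp [itrace] at h
  | [p], _, h => by simp [itrace] at h
  | p :: q :: l, r, h => by
    rcases h with h | h
    · exact Or.inl ⟨up_uIcc hD _ _ _ h.1, up_uIcc hD _ _ _ h.2⟩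
    · exact Or.inr (up_trace (q :: l) r h)

theorem simple_up : ∀ (l : List (ℤ × ℤ)), Simple (l.map (up D)) → ISimple l
  | [], _ => trivial
  | [_], _ => trivial
  | p :: q :: l, h => by
    obtain ⟨h1, h2, h3, h4⟩ := h
    refine ⟨⟨?_, ?_⟩, ?_, simple_up (q :: l) h4⟩
    · rcases h1 with h1 | h1
      · exact Or.inl ((div_eq_iff'' hD _ _).1 h1)
      · exact Or.inr ((div_eq_iff'' hD _ _).1 h1)
    · rintro rfl; exact h2 rfl
    · intro r hr1 hr2 hr3
      apply up_inj hD
      exact h3 (up D r) ⟨up_uIcc hD _ _ _ hr1, up_uIcc hD _ _ _ hr2⟩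
        (up_trace hD (q :: l) r hr3)

theorem cast_min_div (a b : ℤ) :
    min ((a : ℚ) / D) ((b : ℚ) / D) = ((min a b : ℤ) : ℚ) / D := by
  rcases le_total a b with h | h
  · rw [min_eq_left h, min_eq_left ((div_le_iff' hD _ _).2 h)]
  · rw [min_eq_right h, min_eq_right ((div_le_iff' hD _ _).2 h)]

theorem cast_max_div (a b : ℤ) :
    max ((a : ℚ) / D) ((b : ℚ) / D) = ((max a b : ℤ) : ℚ) / D := by
  rcases le_total a b with h | h
  · rw [max_eq_right h, max_eq_right ((div_le_iff' hD _ _).2 h)]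
  · rw [max_eq_left h, max_eq_left ((div_le_iff' hD _ _).2 h)]

theorem hE_up : ∀ (l : List (ℤ × ℤ)) (r : ℤ × ℤ), r ∈ hE l →
    (((r.1 : ℚ) + 1 / 2) / D, (r.2 : ℚ) / D) ∈ hcov (l.map (up D))
  | [], _, h => by simp [hE] at h
  | [p], _, h => by simp [hE] at h
  | p :: q :: l, r, h => by
    have hD' : (0 : ℚ) < D := by exact_mod_cast hD
    rcases h with ⟨h1, h2, h3, h4⟩ | h
    · left
      refine ⟨?_, ?_, ?_, ?_⟩
      · exact (div_eq_iff'' hD _ _).2 h1
      · exact (div_eq_iff'' hD _ _).2 h2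
      · simp only [up]
        rw [cast_min_div hD, div_lt_div_iff_of_pos_right hD']
        have : ((min p.1 q.1 : ℤ) : ℚ) ≤ (r.1 : ℚ) := by exact_mod_cast h3
        linarith
      · simp only [up]
        rw [cast_max_div hD, div_lt_div_iff_of_pos_right hD']
        have : ((r.1 + 1 : ℤ) : ℚ) ≤ ((max p.1 q.1 : ℤ) : ℚ) := Int.cast_le.2 h4
        rw [Int.cast_add, Int.cast_one] at this
        linarith
    · exact Or.inr (hE_up (q :: l) r h)

theorem hcov_floor : ∀ (l : List (ℤ × ℤ)) (r : ℚ × ℚ), r ∈ hcov (l.map (up D)) →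
    (⌊r.1 * D⌋, ⌊r.2 * D⌋) ∈ hE l
  | [], _, h => by simp [hcov] at h
  | [p], _, h => by simp [hcov] at h
  | p :: q :: l, r, h => by
    have hD' : (0 : ℚ) < D := by exact_mod_cast hD
    rcases h with ⟨h1, h2, h3, h4⟩ | h
    · left
      simp only [up] at h1 h2 h3 h4
      have e1 : r.2 * D = (p.2 : ℚ) := by
        rw [← h1]; field_simp
      have e2 : r.2 * D = (q.2 : ℚ) := by
        rw [← h2]; field_simp
      rw [cast_min_div hD, div_lt_iff₀ hD'] at h3
      rw [cast_max_div hD, lt_div_iff₀ hD'] at h4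
      refine ⟨?_, ?_, ?_, ?_⟩
      · simp only []; rw [e1, Int.floor_intCast]
      · simp only []; rw [e2, Int.floor_intCast]
      · simp only []
        exact Int.le_floor.2 h3.le
      · simp only []
        have : ((⌊r.1 * D⌋ : ℤ) : ℚ) < ((max p.1 q.1 : ℤ) : ℚ) :=
          lt_of_le_of_lt (Int.floor_le _) h4
        have := Int.cast_lt.1 this
        omega
    · exact Or.inr (hcov_floor (q :: l) r h)

theorem vE_up : ∀ (l : List (ℤ × ℤ)) (r : ℤ × ℤ), r ∈ vE l →
    ((r.1 : ℚ) / D, ((r.2 : ℚ) + 1 / 2) / D) ∈ vcov (l.map (up D))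
  | [], _, h => by simp [vE] at h
  | [p], _, h => by simp [vE] at h
  | p :: q :: l, r, h => by
    have hD' : (0 : ℚ) < D := by exact_mod_cast hD
    rcases h with ⟨h1, h2, h3, h4⟩ | h
    · left
      refine ⟨?_, ?_, ?_, ?_⟩
      · exact (div_eq_iff'' hD _ _).2 h1
      · exact (div_eq_iff'' hD _ _).2 h2
      · simp only [up]
        rw [cast_min_div hD, div_lt_div_iff_of_pos_right hD']
        have : ((min p.2 q.2 : ℤ) : ℚ) ≤ (r.2 : ℚ) := by exact_mod_cast h3
        linarith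
      · simp only [up]
        rw [cast_max_div hD, div_lt_div_iff_of_pos_right hD']
        have : ((r.2 + 1 : ℤ) : ℚ) ≤ ((max p.2 q.2 : ℤ) : ℚ) := Int.cast_le.2 h4
        rw [Int.cast_add, Int.cast_one] at this
        linarith
    · exact Or.inr (vE_up (q :: l) r h)

theorem vcov_floor : ∀ (l : List (ℤ × ℤ)) (r : ℚ × ℚ), r ∈ vcov (l.map (up D)) →
    (⌊r.1 * D⌋, ⌊r.2 * D⌋) ∈ vE l
  | [], _, h => by simp [vcov] at h
  | [p], _, h => by simp [vcov] at h
  | p :: q :: l, r, h => by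
    have hD' : (0 : ℚ) < D := by exact_mod_cast hD
    rcases h with ⟨h1, h2, h3, h4⟩ | h
    · left
      simp only [up] at h1 h2 h3 h4
      have e1 : r.1 * D = (p.1 : ℚ) := by
        rw [← h1]; field_simp
      have e2 : r.1 * D = (q.1 : ℚ) := by
        rw [← h2]; field_simp
      rw [cast_min_div hD, div_lt_iff₀ hD'] at h3
      rw [cast_max_div hD, lt_div_iff₀ hD'] at h4
      refine ⟨?_, ?_, ?_, ?_⟩
      · simp only []; rw [e1, Int.floor_intCast]
      · simp only []; rw [e2, Int.floor_intCast]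
      · simp only []
        exact Int.le_floor.2 h3.le
      · simp only []
        have : ((⌊r.2 * D⌋ : ℤ) : ℚ) < ((max p.2 q.2 : ℤ) : ℚ) :=
          lt_of_le_of_lt (Int.floor_le _) h4
        have := Int.cast_lt.1 this
        omega
    · exact Or.inr (vcov_floor (q :: l) r h)

theorem touch_up (l m : List (ℤ × ℤ)) :
    Touch (l.map (up D)) (m.map (up D)) ↔ (hE l ∩ hE m).Nonempty ∨ (vE l ∩ vE m).Nonempty := by
  constructor
  · rintro (⟨r, h1, h2⟩ | ⟨r, h1, h2⟩)
    · exact Or.inl ⟨_, hcov_floor hD l r h1, hcov_floor hD m r h2⟩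
    · exact Or.inr ⟨_, vcov_floor hD l r h1, vcov_floor hD m r h2⟩
  · rintro (⟨r, h1, h2⟩ | ⟨r, h1, h2⟩)
    · exact Or.inl ⟨_, hE_up hD l r h1, hE_up hD m r h2⟩
    · exact Or.inr ⟨_, vE_up hD l r h1, vE_up hD m r h2⟩

end

/-- **Discretization.** A finite family of simple rational polylines with at most `b + 2` corners
such that the polylines of two distinct vertices have a segment of positive length in common if and
only if the vertices are adjacent gives an EPG representation with at most `b` bends. -/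
theorem discretize {V : Type*} [Finite V] (G : SimpleGraph V) (b : ℕ) (C : V → List (ℚ × ℚ))
    (h1 : ∀ v, Simple (C v)) (h2 : ∀ v, 2 ≤ (C v).length) (h3 : ∀ v, (C v).length ≤ b + 2)
    (h : ∀ v w, v ≠ w → (G.Adj v w ↔ Touch (C v) (C w))) : BendLE G b := by
  obtain ⟨D, hD, Z, hZ⟩ := exists_scale C
  have hl : ∀ v, (Z v).length = (C v).length := by intro v; rw [hZ v, List.length_map]
  have hs : ∀ v, ISimple (Z v) := by
    intro v
    apply simple_up hD
    rw [← hZ v]
    exact h1 v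
  refine ⟨fun v => expand (Z v), ⟨?_, ?_⟩, ?_⟩
  · intro v
    exact expand_path (Z v) (hs v) (by rw [hl]; exact h2 v)
  · intro v w hvw
    rw [h v w hvw, edges_inter (Z v) (Z w) (isimple_ax _ (hs v)) (isimple_ax _ (hs w)),
      hZ v, hZ w, touch_up hD]
  · intro v
    have := expand_bends (Z v) (isimple_ax _ (hs v))
    rw [hl] at this
    have := h3 v
    simp only []
    omega

/-- the representation of a graph restricts to induced subgraphs -/
theorem BendLE.comap {V W : Type*} {G : SimpleGraph W} {b : ℕ} (h : BendLE G b) (f : V ↪ W) :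
    BendLE (G.comap f) b := by
  obtain ⟨P, hP, hb⟩ := h
  refine ⟨fun v => P (f v), ⟨fun v => hP.path (f v), ?_⟩, fun v => hb (f v)⟩
  intro v w hvw
  rw [SimpleGraph.comap_adj]
  exact hP.adj_iff (f v) (f w) (fun h => hvw (f.injective h))

/-- **Reduction.** It is enough to draw the spanning subgraphs of the simple `k`-trees by rational
polylines. -/
theorem reduction {k b : ℕ}
    (H : ∀ (n : ℕ) (T : SimpleGraph (Fin n)), IsSimpleKTree k n T → ∀ G : SimpleGraph (Fin n),
      G ≤ T → ∃ C : Fin n → List (ℚ × ℚ), (∀ v, Simple (C v)) ∧ (∀ v, 2 ≤ (C v).length) ∧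
        (∀ v, (C v).length ≤ b + 2) ∧ ∀ v w, v ≠ w → (G.Adj v w ↔ Touch (C v) (C w)))
    {V : Type*} (G : SimpleGraph V) (hG : StwLE k G) : BendLE G b := by
  obtain ⟨n, T, hT, f, hf⟩ := hG
  obtain ⟨C, h1, h2, h3, h4⟩ := H n T hT (G.map f) (by
    intro a c hac
    rw [SimpleGraph.map_adj] at hac
    obtain ⟨u, v, huv, rfl, rfl⟩ := hac
    exact hf u v huv)
  have h5 := discretize (G.map f) b C h1 h2 h3 h4
  have h6 := h5.comap f
  rwa [SimpleGraph.comap_map_eq] at h6

/-- the bend number of `G` is at most `b` if there is a representation with at most `b` bends -/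
theorem bendNumber_le {V : Type*} {G : SimpleGraph V} {b : ℕ} (h : BendLE G b) :
    bendNumber G ≤ b := Nat.sInf_le h

end Pool.Agent.EPG
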